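import Mathlib

/-!
Projective modules over `ℤ[G]` presented by one relation are stably free.
-/

set_option autoImplicit false

namespace Pool.Agent.Lib.MP_551055_al

universe u v w

/-- Stable freeness, in the form used in the problem. -/
def StFree (R : Type u) [Ring R] (P : Type v) [AddCommGroup P] [Module R P] : Prop :=
  ∃ n m : ℕ, Nonempty ((P × (Fin n → R)) ≃ₗ[R] (Fin m → R))

theorem StFree.congr {R : Type u} [Ring R] {P : Type v} [AddCommGroup P] [Module R P]
    {Q : Type w} [AddCommGroup Q] [Module R Q] (e : P ≃ₗ[R] Q) (h : StFree R P) :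
    StFree R Q := by
  obtain ⟨n, m, ⟨f⟩⟩ := h
  exact ⟨n, m, ⟨(LinearEquiv.prodCongr e.symm (LinearEquiv.refl R _)).trans f⟩⟩

theorem StFree.of_equiv_fin {R : Type u} [Ring R] {P : Type v} [AddCommGroup P] [Module R P]
    {k : ℕ} (e : P ≃ₗ[R] (Fin k → R)) : StFree R P := by
  refine ⟨0, k, ⟨?_⟩⟩
  exact (LinearEquiv.prodUnique (R := R) (M := P) (M₂ := Fin 0 → R)).trans e

end Pool.Agent.Lib.MP_551055_al
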