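import Mathlib
import Pool.Agent.Lib.MP_551055_al.Trim.OneRelation

/-!
Transposing a presentation: over a ring with involution, the cokernel of a matrix is stably free
as soon as the cokernel of its conjugate transpose is (both assumed projective).
-/

set_option autoImplicit false

namespace Pool.Agent.Lib.MP_551055_al

universe u v w

open Matrix

variable {R : Type u} [Ring R]

/-- The cokernel of right multiplication by a matrix on row vectors. -/
abbrev Cok {m n : ℕ} (A : Matrix (Fin m) (Fin n) R) : Type u :=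
  (Fin n → R) ⧸ LinearMap.range (Matrix.toLinearMapRight' A)

theorem StFree.prod_free {P : Type v} [AddCommGroup P] [Module R P] {a : ℕ}
    (h : StFree R P) : StFree R (P × (Fin a → R)) := by
  obtain ⟨n, m, ⟨f⟩⟩ := h
  refine ⟨n, m + a, ⟨?_⟩⟩
  let e1 : ((P × (Fin a → R)) × (Fin n → R)) ≃ₗ[R] (P × (Fin n → R)) × (Fin a → R) :=
    { toFun := fun z => ((z.1.1, z.2), z.1.2)
      invFun := fun z => ((z.1.1, z.2), z.1.2)
      left_inv := fun z => rfl
      right_inv := fun z => rfl
      map_add' := fun z z' => rfl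
      map_smul' := fun r z => rfl }
  exact e1.trans ((LinearEquiv.prodCongr f (LinearEquiv.refl R (Fin a → R))).trans
    ((LinearEquiv.sumArrowLequivProdArrow (Fin m) (Fin a) R R).symm.trans
      (LinearEquiv.funCongrLeft R R finSumFinEquiv.symm)))

theorem StFree.of_prod_free {P : Type v} [AddCommGroup P] [Module R P] {a : ℕ}
    (h : StFree R (P × (Fin a → R))) : StFree R P := by
  obtain ⟨n, m, ⟨f⟩⟩ := h
  refine ⟨a + n, m, ⟨?_⟩⟩
  let e1 : (P × ((Fin a → R) × (Fin n → R))) ≃ₗ[R] ((P × (Fin a → R)) × (Fin n → R)) :=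
    { toFun := fun z => ((z.1, z.2.1), z.2.2)
      invFun := fun z => (z.1.1, (z.1.2, z.2))
      left_inv := fun z => rfl
      right_inv := fun z => rfl
      map_add' := fun z z' => rfl
      map_smul' := fun r z => rfl }
  exact (LinearEquiv.prodCongr (LinearEquiv.refl R P)
    ((LinearEquiv.funCongrLeft R R finSumFinEquiv).trans
      (LinearEquiv.sumArrowLequivProdArrow (Fin a) (Fin n) R R))).trans (e1.trans f)

theorem exists_quasiInverse {m n : ℕ} (A : Matrix (Fin m) (Fin n) R)
    [Module.Projective R (Cok A)] : ∃ B : Matrix (Fin n) (Fin m) R, A * B * A = A := by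
  classical
  set α : (Fin m → R) →ₗ[R] (Fin n → R) := Matrix.toLinearMapRight' A with hα
  obtain ⟨σ, hσ⟩ := Module.projective_lifting_property (LinearMap.range α).mkQ LinearMap.id
    (Submodule.mkQ_surjective _)
  have hσ' : ∀ p, (LinearMap.range α).mkQ (σ p) = p := fun p => DFunLike.congr_fun hσ p
  let q : (Fin n → R) →ₗ[R] (Fin n → R) := LinearMap.id - σ ∘ₗ (LinearMap.range α).mkQ
  have hq : ∀ v, q v ∈ LinearMap.range α := by
    intro v
    rw [← Submodule.ker_mkQ (LinearMap.range α), LinearMap.mem_ker]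
    simp only [q, LinearMap.sub_apply, LinearMap.id_apply, LinearMap.comp_apply, map_sub]
    rw [hσ', sub_self]
  obtain ⟨β, hβ⟩ := Module.projective_lifting_property α.rangeRestrict (q.codRestrict _ hq)
    α.surjective_rangeRestrict
  have hβ' : ∀ v, α (β v) = q v := fun v => congrArg Subtype.val (DFunLike.congr_fun hβ v)
  obtain ⟨B, hB⟩ := (Matrix.toLinearMapRight' (m := Fin n) (n := Fin m) (R := R)).surjective β
  refine ⟨B, ?_⟩
  apply (Matrix.toLinearMapRight' (m := Fin m) (n := Fin n) (R := R)).injective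
  rw [Matrix.toLinearMapRight'_mul, Matrix.toLinearMapRight'_mul, hB]
  ext1 i
  ext1
  simp only [LinearMap.comp_apply, ← hα]
  rw [hβ']
  simp only [q, LinearMap.sub_apply, LinearMap.id_apply, LinearMap.comp_apply]
  have : (LinearMap.range α).mkQ (α ((LinearMap.single R (fun _ => R) i) 1)) = 0 := by
    rw [Submodule.mkQ_apply, Submodule.Quotient.mk_eq_zero]
    exact ⟨_, rfl⟩
  rw [this, map_zero, sub_zero]

theorem cok_projective {m n : ℕ} {A : Matrix (Fin m) (Fin n) R} {B : Matrix (Fin n) (Fin m) R}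
    (h : A * B * A = A) : Module.Projective R (Cok A) := by
  classical
  have hker : LinearMap.range (Matrix.toLinearMapRight' A)
      ≤ LinearMap.ker (Matrix.toLinearMapRight' (1 - B * A)) := by
    rintro _ ⟨v, rfl⟩
    rw [LinearMap.mem_ker, ← Matrix.toLinearMapRight'_mul_apply, Matrix.mul_sub, Matrix.mul_one,
      ← Matrix.mul_assoc, h, sub_self, map_zero, LinearMap.zero_apply]
  refine Module.Projective.of_split
    (Submodule.liftQ _ (Matrix.toLinearMapRight' (1 - B * A)) hker)
    (LinearMap.range (Matrix.toLinearMapRight' A)).mkQ ?_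
  apply LinearMap.ext
  intro c
  obtain ⟨v, rfl⟩ := Submodule.mkQ_surjective _ c
  rw [LinearMap.comp_apply, LinearMap.id_apply]
  change Submodule.Quotient.mk (Matrix.toLinearMapRight' (1 - B * A) v) = Submodule.Quotient.mk v
  rw [Submodule.Quotient.eq]
  refine ⟨-(Matrix.toLinearMapRight' B v), ?_⟩
  rw [map_neg, ← Matrix.toLinearMapRight'_mul_apply, map_sub, LinearMap.sub_apply,
    Matrix.toLinearMapRight'_one, LinearMap.id_apply]
  abel

/-- The cokernel is isomorphic to the image of the complementary idempotent. -/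
theorem cok_equiv {m n : ℕ} {A : Matrix (Fin m) (Fin n) R} {B : Matrix (Fin n) (Fin m) R}
    (h : A * B * A = A) :
    Nonempty (Cok A ≃ₗ[R] LinearMap.range (Matrix.toLinearMapRight' (1 - B * A))) := by
  classical
  have hker : LinearMap.range (Matrix.toLinearMapRight' A)
      = LinearMap.ker (Matrix.toLinearMapRight' (1 - B * A)) := by
    apply le_antisymm
    · rintro _ ⟨v, rfl⟩
      rw [LinearMap.mem_ker, ← Matrix.toLinearMapRight'_mul_apply, Matrix.mul_sub, Matrix.mul_one,
        ← Matrix.mul_assoc, h, sub_self, map_zero, LinearMap.zero_apply]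
    · intro v hv
      rw [LinearMap.mem_ker, map_sub, LinearMap.sub_apply, Matrix.toLinearMapRight'_one,
        LinearMap.id_apply, sub_eq_zero] at hv
      rw [hv, Matrix.toLinearMapRight'_mul_apply]
      exact ⟨_, rfl⟩
  exact ⟨(Submodule.quotEquivOfEq _ _ hker).trans (LinearMap.quotKerEquivRange _)⟩

/-- `coker ⊕ R^m ≅ ker ⊕ R^n`. -/
theorem cok_ker_equiv {m n : ℕ} {A : Matrix (Fin m) (Fin n) R} {B : Matrix (Fin n) (Fin m) R}
    (h : A * B * A = A) :
    Nonempty ((LinearMap.range (Matrix.toLinearMapRight' (1 - A * B)) × (Fin n → R)) ≃ₗ[R]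
      (LinearMap.range (Matrix.toLinearMapRight' (1 - B * A)) × (Fin m → R))) := by
  classical
  set α := Matrix.toLinearMapRight' A with hα
  set β := Matrix.toLinearMapRight' (B * A * B) with hβ
  have e1 : ∀ u, Matrix.toLinearMapRight' (1 - A * B) u = u - β (α u) := by
    intro u
    rw [hα, hβ, ← Matrix.toLinearMapRight'_mul_apply, map_sub, LinearMap.sub_apply,
      Matrix.toLinearMapRight'_one, LinearMap.id_apply, ← Matrix.mul_assoc, ← Matrix.mul_assoc,
      h]
  have e2 : ∀ v, Matrix.toLinearMapRight' (1 - B * A) v = v - α (β v) := by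
    intro v
    rw [hα, hβ, ← Matrix.toLinearMapRight'_mul_apply, map_sub, LinearMap.sub_apply,
      Matrix.toLinearMapRight'_one, LinearMap.id_apply, Matrix.mul_assoc B A B,
      Matrix.mul_assoc B (A * B) A, h]
  have e3 : ∀ u, α (β (α u)) = α u := by
    intro u
    rw [hα, hβ, ← Matrix.toLinearMapRight'_mul_apply, ← Matrix.toLinearMapRight'_mul_apply]
    have : A * (B * A * B * A) = A := by
      calc A * (B * A * B * A) = (A * B * A) * B * A := by simp only [Matrix.mul_assoc]
        _ = A := by rw [h, h]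
    rw [this]
  have e4 : ∀ v, β (α (β v)) = β v := by
    intro v
    rw [hα, hβ, ← Matrix.toLinearMapRight'_mul_apply, ← Matrix.toLinearMapRight'_mul_apply]
    have : B * A * B * (A * (B * A * B)) = B * A * B := by
      calc B * A * B * (A * (B * A * B)) = B * (A * B * A) * B * A * B := by
            simp only [Matrix.mul_assoc]
        _ = B * A * B * A * B := by rw [h]
        _ = B * (A * B * A) * B := by simp only [Matrix.mul_assoc]
        _ = B * A * B := by rw [h]
    rw [this]
  have m1 : ∀ u, u ∈ LinearMap.range (Matrix.toLinearMapRight' (1 - A * B)) ↔ β (α u) = 0 := by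
    intro u
    constructor
    · rintro ⟨u, rfl⟩
      rw [e1, map_sub, e3, sub_self, map_zero]
    · intro hu
      exact ⟨u, by rw [e1, hu, sub_zero]⟩
  have m2 : ∀ v, v ∈ LinearMap.range (Matrix.toLinearMapRight' (1 - B * A)) ↔ α (β v) = 0 := by
    intro v
    constructor
    · rintro ⟨v, rfl⟩
      rw [e2, map_sub, e4, sub_self, map_zero]
    · intro hv
      exact ⟨v, by rw [e2, hv, sub_zero]⟩
  refine ⟨LinearEquiv.ofLinearMap
    (LinearMap.prod
      ((Matrix.toLinearMapRight' (1 - B * A)).rangeRestrict ∘ₗ LinearMap.snd R _ _)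
      ((LinearMap.range (Matrix.toLinearMapRight' (1 - A * B))).subtype ∘ₗ LinearMap.fst R _ _
        + β ∘ₗ LinearMap.snd R _ _))
    (LinearMap.prod
      ((Matrix.toLinearMapRight' (1 - A * B)).rangeRestrict ∘ₗ LinearMap.snd R _ _)
      ((LinearMap.range (Matrix.toLinearMapRight' (1 - B * A))).subtype ∘ₗ LinearMap.fst R _ _
        + α ∘ₗ LinearMap.snd R _ _)) ?_ ?_⟩
  · apply LinearMap.ext
    rintro ⟨⟨c, hc⟩, u⟩
    have hc' := (m2 c).1 hc
    have hc2 : β c = 0 := by rw [← e4, hc', map_zero]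
    refine Prod.ext (Subtype.ext ?_) ?_
    · change Matrix.toLinearMapRight' (1 - B * A) (c + α u) = c
      rw [e2, map_add, map_add, hc', e3]
      abel
    · change Matrix.toLinearMapRight' (1 - A * B) u + β (c + α u) = u
      rw [e1, map_add, hc2]
      abel
  · apply LinearMap.ext
    rintro ⟨⟨l, hl⟩, v⟩
    have hl' := (m1 l).1 hl
    have hl2 : α l = 0 := by rw [← e3, hl', map_zero]
    refine Prod.ext (Subtype.ext ?_) ?_
    · change Matrix.toLinearMapRight' (1 - A * B) (l + β v) = l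
      rw [e1, map_add, map_add, hl', e4]
      abel
    · change Matrix.toLinearMapRight' (1 - B * A) v + α (l + β v) = v
      rw [e2, map_add, hl2]
      abel

theorem fromBlocks_apply_sum {n a : ℕ} (e : Matrix (Fin n) (Fin n) R)
    (x : Fin n ⊕ Fin a → R) :
    Matrix.toLinearMapRight' (Matrix.fromBlocks e 0 0 (1 : Matrix (Fin a) (Fin a) R)) x
      = Sum.elim (Matrix.toLinearMapRight' e (x ∘ Sum.inl)) (x ∘ Sum.inr) := by
  classical
  rw [Matrix.toLinearMapRight'_apply, Matrix.toLinearMapRight'_apply]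
  have hx : x = Sum.elim (x ∘ Sum.inl) (x ∘ Sum.inr) := by
    ext i; cases i <;> rfl
  conv_lhs => rw [hx]
  rw [Matrix.vecMul_fromBlocks]
  simp

/-- Stable freeness of the image of an idempotent is invariant under conjugate transpose. -/
theorem stFree_range_conjTranspose [StarRing R] {n : ℕ} (e : Matrix (Fin n) (Fin n) R)
    (he : e * e = e) (h : StFree R (LinearMap.range (Matrix.toLinearMapRight' e))) :
    StFree R (LinearMap.range (Matrix.toLinearMapRight' eᴴ)) := by
  classical
  obtain ⟨a, b, ⟨Φ⟩⟩ := h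
  let S := LinearEquiv.sumArrowLequivProdArrow (Fin n) (Fin a) R R
  let U : (Fin n ⊕ Fin a → R) →ₗ[R] (Fin b → R) :=
    Φ.toLinearMap ∘ₗ (LinearMap.prodMap (Matrix.toLinearMapRight' e).rangeRestrict
      (LinearMap.id : (Fin a → R) →ₗ[R] (Fin a → R))) ∘ₗ S.toLinearMap
  let V : (Fin b → R) →ₗ[R] (Fin n ⊕ Fin a → R) :=
    S.symm.toLinearMap ∘ₗ (LinearMap.prodMap
      (LinearMap.range (Matrix.toLinearMapRight' e)).subtype
      (LinearMap.id : (Fin a → R) →ₗ[R] (Fin a → R))) ∘ₗ Φ.symm.toLinearMap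
  have hfix : ∀ v ∈ LinearMap.range (Matrix.toLinearMapRight' e),
      Matrix.toLinearMapRight' e v = v := by
    rintro _ ⟨v, rfl⟩
    rw [← Matrix.toLinearMapRight'_mul_apply, he]
  have hUV : U ∘ₗ V = LinearMap.id := by
    apply LinearMap.ext
    intro v
    simp only [U, V, LinearMap.comp_apply, LinearEquiv.coe_coe, LinearEquiv.apply_symm_apply,
      LinearMap.id_apply, LinearMap.prodMap_apply]
    rw [← LinearEquiv.apply_symm_apply Φ v]
    congr 1
    rw [LinearEquiv.apply_symm_apply Φ v]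
    refine Prod.ext (Subtype.ext ?_) rfl
    exact hfix _ (Φ.symm v).1.2
  have hVU : V ∘ₗ U = Matrix.toLinearMapRight'
      (Matrix.fromBlocks e 0 0 (1 : Matrix (Fin a) (Fin a) R)) := by
    apply LinearMap.ext
    intro x
    rw [fromBlocks_apply_sum]
    simp only [U, V, LinearMap.comp_apply, LinearEquiv.coe_coe, LinearEquiv.symm_apply_apply,
      LinearMap.prodMap_apply]
    ext i
    cases i <;> rfl
  obtain ⟨MU, hMU⟩ :=
    (Matrix.toLinearMapRight' (m := Fin n ⊕ Fin a) (n := Fin b) (R := R)).surjective U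
  obtain ⟨MV, hMV⟩ :=
    (Matrix.toLinearMapRight' (m := Fin b) (n := Fin n ⊕ Fin a) (R := R)).surjective V
  have hMVMU : MV * MU = 1 := by
    apply (Matrix.toLinearMapRight' (m := Fin b) (n := Fin b) (R := R)).injective
    rw [Matrix.toLinearMapRight'_mul, hMU, hMV, hUV, Matrix.toLinearMapRight'_one]
  have hMUMV : MU * MV = Matrix.fromBlocks e 0 0 (1 : Matrix (Fin a) (Fin a) R) := by
    apply (Matrix.toLinearMapRight' (m := Fin n ⊕ Fin a) (n := Fin n ⊕ Fin a) (R := R)).injective
    rw [Matrix.toLinearMapRight'_mul, hMU, hMV, hVU]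
  have h1 : MUᴴ * MVᴴ = 1 := by
    rw [← Matrix.conjTranspose_mul, hMVMU, Matrix.conjTranspose_one]
  have h2 : MVᴴ * MUᴴ = Matrix.fromBlocks eᴴ 0 0 (1 : Matrix (Fin a) (Fin a) R) := by
    rw [← Matrix.conjTranspose_mul, hMUMV, Matrix.fromBlocks_conjTranspose,
      Matrix.conjTranspose_zero, Matrix.conjTranspose_zero, Matrix.conjTranspose_one]
  have he' : eᴴ * eᴴ = eᴴ := by rw [← Matrix.conjTranspose_mul, he]
  have hfix' : ∀ v ∈ LinearMap.range (Matrix.toLinearMapRight' eᴴ),
      Matrix.toLinearMapRight' eᴴ v = v := by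
    rintro _ ⟨v, rfl⟩
    rw [← Matrix.toLinearMapRight'_mul_apply, he']
  let U' : (LinearMap.range (Matrix.toLinearMapRight' eᴴ) × (Fin a → R)) →ₗ[R] (Fin b → R) :=
    (Matrix.toLinearMapRight' MVᴴ) ∘ₗ S.symm.toLinearMap ∘ₗ
      (LinearMap.prodMap (LinearMap.range (Matrix.toLinearMapRight' eᴴ)).subtype LinearMap.id)
  have hU' : Function.Bijective U' := by
    constructor
    · rw [← LinearMap.ker_eq_bot, eq_bot_iff]
      rintro ⟨⟨q, hq⟩, w⟩ hv
      have hv' : Matrix.toLinearMapRight' MVᴴ (Sum.elim q w) = 0 := hv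
      have h3 : Matrix.toLinearMapRight' (MVᴴ * MUᴴ) (Sum.elim q w) = 0 := by
        rw [Matrix.toLinearMapRight'_mul_apply, hv', map_zero]
      rw [h2, fromBlocks_apply_sum, Sum.elim_comp_inl, Sum.elim_comp_inr, hfix' q hq] at h3
      have hq0 : q = 0 := by
        ext i; exact congrFun h3 (Sum.inl i)
      have hw0 : w = 0 := by
        ext i; exact congrFun h3 (Sum.inr i)
      subst hq0
      subst hw0
      exact Submodule.zero_mem _
    · intro v
      set x := Matrix.toLinearMapRight' MUᴴ v with hx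
      have hx1 : Matrix.toLinearMapRight' MVᴴ x = v := by
        rw [hx, ← Matrix.toLinearMapRight'_mul_apply, h1, Matrix.toLinearMapRight'_one,
          LinearMap.id_apply]
      have hx2 : x = Sum.elim (Matrix.toLinearMapRight' eᴴ (x ∘ Sum.inl)) (x ∘ Sum.inr) := by
        rw [← fromBlocks_apply_sum, ← h2, Matrix.toLinearMapRight'_mul_apply, hx1]
      refine ⟨(⟨Matrix.toLinearMapRight' eᴴ (x ∘ Sum.inl), ⟨_, rfl⟩⟩, x ∘ Sum.inr), ?_⟩
      change Matrix.toLinearMapRight' MVᴴ
        (Sum.elim (Matrix.toLinearMapRight' eᴴ (x ∘ Sum.inl)) (x ∘ Sum.inr)) = v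
      rw [← hx2, hx1]
  exact ⟨a, b, ⟨LinearEquiv.ofBijective U' hU'⟩⟩

/-- **Transposition.** -/
theorem stFree_cok_of_conjTranspose [StarRing R] {m n : ℕ} (A : Matrix (Fin m) (Fin n) R)
    [Module.Projective R (Cok A)]
    (h : Module.Projective R (Cok Aᴴ) → StFree R (Cok Aᴴ)) : StFree R (Cok A) := by
  obtain ⟨B, hB⟩ := exists_quasiInverse A
  have hB' : Aᴴ * Bᴴ * Aᴴ = Aᴴ := by
    rw [Matrix.mul_assoc, ← Matrix.conjTranspose_mul, ← Matrix.conjTranspose_mul, hB]
  have h1 := h (cok_projective hB')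
  obtain ⟨e1⟩ := cok_equiv hB'
  obtain ⟨e2⟩ := cok_ker_equiv hB'
  obtain ⟨e3⟩ := cok_equiv hB
  have h2 : StFree R (LinearMap.range (Matrix.toLinearMapRight' (1 - Aᴴ * Bᴴ))) := by
    apply StFree.of_prod_free
    exact ((h1.congr e1).prod_free).congr e2.symm
  have h3 : (1 - Aᴴ * Bᴴ)ᴴ = 1 - B * A := by
    rw [Matrix.conjTranspose_sub, Matrix.conjTranspose_mul, Matrix.conjTranspose_one,
      Matrix.conjTranspose_conjTranspose, Matrix.conjTranspose_conjTranspose]
  have hidem : (1 - Aᴴ * Bᴴ) * (1 - Aᴴ * Bᴴ) = 1 - Aᴴ * Bᴴ := by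
    rw [Matrix.mul_sub, Matrix.mul_one, Matrix.sub_mul, Matrix.one_mul, ← Matrix.mul_assoc, hB']
    abel
  have h4 := stFree_range_conjTranspose _ hidem h2
  rw [h3] at h4
  exact h4.congr e3.symm

end Pool.Agent.Lib.MP_551055_al
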