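import Mathlib

/-!
Kaplansky's theorem for the integral group ring: the only idempotents of `ℤ[G]` are `0` and `1`.
-/

set_option autoImplicit false

namespace Pool.Agent.Lib.MP_551055_al.Kaplansky

open scoped InnerProductSpace

universe u

variable {G : Type u}

/-- The real Hilbert space of square-summable functions. -/
abbrev Hs (G : Type u) : Type u := lp (fun _ : G => ℝ) 2

/-- Its canonical Hilbert basis. -/
noncomputable def bs (G : Type u) : HilbertBasis G ℝ (Hs G) :=
  HilbertBasis.ofRepr (LinearIsometryEquiv.refl ℝ _)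

theorem ext_bs {A B : Hs G →L[ℝ] Hs G} (h : ∀ g, A (bs G g) = B (bs G g)) : A = B := by
  apply ContinuousLinearMap.ext_on (s := Set.range (bs G))
  · have := (bs G).dense_span
    rw [Submodule.dense_iff_topologicalClosure_eq_top]
    exact this
  · rintro _ ⟨g, rfl⟩
    exact h g

/-- The permuted basis. -/
noncomputable def bsPerm (σ : Equiv.Perm G) : HilbertBasis G ℝ (Hs G) :=
  HilbertBasis.mk (v := fun g => bs G (σ g)) ((bs G).orthonormal.comp σ σ.injective) (by
    have h1 : Set.range (fun g => bs G (σ g)) = Set.range (bs G) := by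
      ext x
      constructor
      · rintro ⟨g, rfl⟩; exact ⟨σ g, rfl⟩
      · rintro ⟨g, rfl⟩; exact ⟨σ.symm g, by simp⟩
    rw [h1, (bs G).dense_span])

theorem bsPerm_apply (σ : Equiv.Perm G) (g : G) : bsPerm σ g = bs G (σ g) := by
  simp [bsPerm]

/-- The unitary operator permuting the canonical basis. -/
noncomputable def Tp (σ : Equiv.Perm G) : Hs G ≃ₗᵢ[ℝ] Hs G :=
  (bs G).repr.trans (bsPerm σ).repr.symm

theorem Tp_bs (σ : Equiv.Perm G) (g : G) : Tp σ (bs G g) = bs G (σ g) := by
  classical
  simp only [Tp, LinearIsometryEquiv.trans_apply, HilbertBasis.repr_self]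
  rw [HilbertBasis.repr_symm_single, bsPerm_apply]

variable [Group G]

/-- Left translation as a monoid homomorphism. -/
noncomputable def lam : G →* (Hs G →L[ℝ] Hs G) where
  toFun g := (Tp (Equiv.mulLeft g)).toContinuousLinearEquiv.toContinuousLinearMap
  map_one' := by
    apply ext_bs
    intro g
    change Tp (Equiv.mulLeft 1) (bs G g) = _
    rw [Tp_bs]
    simp
  map_mul' a b := by
    apply ext_bs
    intro g
    change Tp (Equiv.mulLeft (a * b)) (bs G g) = Tp (Equiv.mulLeft a) (Tp (Equiv.mulLeft b) (bs G g))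
    rw [Tp_bs, Tp_bs, Tp_bs]
    simp

theorem lam_bs (a g : G) : lam a (bs G g) = bs G (a * g) := by
  change Tp (Equiv.mulLeft a) (bs G g) = _
  rw [Tp_bs]; rfl

/-- Right translation. -/
noncomputable def Rt (s : G) : Hs G ≃ₗᵢ[ℝ] Hs G := Tp (Equiv.mulRight s)

theorem Rt_bs (s g : G) : Rt s (bs G g) = bs G (g * s) := by
  change Tp (Equiv.mulRight s) (bs G g) = _
  rw [Tp_bs]; rfl

open Classical in
theorem inner_bs (g h : G) : ⟪bs G g, bs G h⟫_ℝ = if g = h then 1 else 0 := by
  have := (bs G).orthonormal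
  rw [orthonormal_iff_ite] at this
  exact this g h

end Pool.Agent.Lib.MP_551055_al.Kaplansky
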