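import Mathlib
import Pool.Agent.Lib.MP_551055_al.Trim.OneRelation

/-!
Descent of idempotent matrices over `ℤ[G]` whose rows are generated by blocks defined over
subgroups.
-/

set_option autoImplicit false

set_option linter.unusedSectionVars false

namespace Pool.Agent.Lib.MP_551055_al
end Pool.Agent.Lib.MP_551055_al

namespace Pool.Agent.Lib.MP_551055_al.VN

open Pool.Agent.Lib.MP_551055_al

open MonoidAlgebra

universe u v

section General

variable {R : Type u} [Ring R] {n : ℕ}

theorem StFree.prod {P Q : Type u} [AddCommGroup P] [Module R P] [AddCommGroup Q] [Module R Q]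
    (hP : StFree R P) (hQ : StFree R Q) : StFree R (P × Q) := by
  obtain ⟨a, b, ⟨f⟩⟩ := hP
  obtain ⟨c, d, ⟨g⟩⟩ := hQ
  refine ⟨a + c, b + d, ⟨?_⟩⟩
  let e0 : (Fin (a + c) → R) ≃ₗ[R] (Fin a → R) × (Fin c → R) :=
    (LinearEquiv.funCongrLeft R R finSumFinEquiv).trans
      (LinearEquiv.sumArrowLequivProdArrow (Fin a) (Fin c) R R)
  let e1 : ((P × Q) × ((Fin a → R) × (Fin c → R))) ≃ₗ[R]
      (P × (Fin a → R)) × (Q × (Fin c → R)) :=
    { toFun := fun z => ((z.1.1, z.2.1), (z.1.2, z.2.2))
      invFun := fun z => ((z.1.1, z.2.1), (z.1.2, z.2.2))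
      left_inv := fun z => rfl
      right_inv := fun z => rfl
      map_add' := fun z z' => rfl
      map_smul' := fun r z => rfl }
  exact (LinearEquiv.prodCongr (LinearEquiv.refl R (P × Q)) e0).trans
    (e1.trans ((LinearEquiv.prodCongr f g).trans
    ((LinearEquiv.sumArrowLequivProdArrow (Fin b) (Fin d) R R).symm.trans
      (LinearEquiv.funCongrLeft R R finSumFinEquiv.symm))))

theorem vecMul_of_mem_range {e : Matrix (Fin n) (Fin n) R} (he : e * e = e) {p : Fin n → R}
    (hp : p ∈ LinearMap.range (Matrix.toLinearMapRight' e)) : Matrix.vecMul p e = p := by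
  obtain ⟨v, rfl⟩ := hp
  change Matrix.vecMul (Matrix.vecMul v e) e = Matrix.vecMul v e
  rw [Matrix.vecMul_vecMul, he]

end General

section Blocks

end Blocks

end Pool.Agent.Lib.MP_551055_al.VN
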