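import Mathlib
import Pool.Agent.Lib.MP_551055_al.Trim.OneRelation
import Pool.Agent.Lib.MP_551055_al.Trim.VNBlocks
import Pool.Agent.Lib.MP_551055_al.Trim.VNDefs

/-!
The main theorem for modules given by generators and relations.
-/

set_option autoImplicit false

set_option linter.unusedSectionVars false

namespace Pool.Agent.Lib.MP_551055_al
end Pool.Agent.Lib.MP_551055_al

namespace Pool.Agent.Lib.MP_551055_al.VN

open Pool.Agent.Lib.MP_551055_al

open MonoidAlgebra

universe u v

section

variable {G : Type u} [Group G] {n l : ℕ}

theorem stFree_range_of_proj {K : Type u} [Group K] (hK : ProjStFree K)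
    (ε : Matrix (Fin n) (Fin n) (MonoidAlgebra ℤ K)) (hε : ε * ε = ε) :
    StFree (MonoidAlgebra ℤ K) (LinearMap.range (Matrix.toLinearMapRight' ε)) := by
  have h1 : Module.Projective (MonoidAlgebra ℤ K)
      (LinearMap.range (Matrix.toLinearMapRight' ε)) := by
    refine Module.Projective.of_split (LinearMap.range (Matrix.toLinearMapRight' ε)).subtype
      (Matrix.toLinearMapRight' ε).rangeRestrict ?_
    apply LinearMap.ext
    intro p
    apply Subtype.ext
    exact vecMul_of_mem_range hε p.2
  exact hK _ (Module.Finite.range _) h1

end

end Pool.Agent.Lib.MP_551055_al.VN
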