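import Mathlib

/-!
Schanuel's lemma and Fox calculus.
-/

set_option autoImplicit false

set_option linter.unusedSectionVars false

namespace Pool.Agent.Lib.MP_551055_al

universe u v w z

open MonoidAlgebra

/-- **Schanuel's lemma**, in the form needed here. -/
theorem schanuel {R : Type u} [Ring R] {P₁ : Type v} {P₂ : Type w} {Q : Type z}
    [AddCommGroup P₁] [AddCommGroup P₂] [AddCommGroup Q] [Module R P₁] [Module R P₂] [Module R Q]
    [Module.Projective R P₁] [Module.Projective R P₂]
    (f : P₁ →ₗ[R] Q) (g : P₂ →ₗ[R] Q) (hf : Function.Surjective f) (hg : Function.Surjective g) :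
    Nonempty ((LinearMap.ker f × P₂) ≃ₗ[R] (LinearMap.ker g × P₁)) := by
  obtain ⟨h, hh⟩ := Module.projective_lifting_property g f hg
  obtain ⟨h', hh'⟩ := Module.projective_lifting_property f g hf
  have e1 : ∀ p, g (h p) = f p := fun p => DFunLike.congr_fun hh p
  have e2 : ∀ p, f (h' p) = g p := fun p => DFunLike.congr_fun hh' p
  let A : (LinearMap.ker f × P₂) →ₗ[R] P₁ :=
    (LinearMap.ker f).subtype ∘ₗ LinearMap.fst R _ _ + h' ∘ₗ LinearMap.snd R _ _
  let B : (LinearMap.ker g × P₁) →ₗ[R] P₂ :=
    (LinearMap.ker g).subtype ∘ₗ LinearMap.fst R _ _ + h ∘ₗ LinearMap.snd R _ _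
  have hA : ∀ a : LinearMap.ker f × P₂,
      (LinearMap.snd R (LinearMap.ker f) P₂ - h ∘ₗ A) a ∈ LinearMap.ker g := by
    rintro ⟨⟨a, ha⟩, p⟩
    rw [LinearMap.mem_ker] at ha ⊢
    change g (p - h (a + h' p)) = 0
    rw [map_sub, e1, map_add, ha, e2, zero_add, sub_self]
  have hB : ∀ b : LinearMap.ker g × P₁,
      (LinearMap.snd R (LinearMap.ker g) P₁ - h' ∘ₗ B) b ∈ LinearMap.ker f := by
    rintro ⟨⟨b, hb⟩, p⟩
    rw [LinearMap.mem_ker] at hb ⊢
    change f (p - h' (b + h p)) = 0
    rw [map_sub, e2, map_add, hb, e1, zero_add, sub_self]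
  let Φ : (LinearMap.ker f × P₂) →ₗ[R] (LinearMap.ker g × P₁) :=
    LinearMap.prod ((LinearMap.snd R _ _ - h ∘ₗ A).codRestrict _ hA) A
  let Ψ : (LinearMap.ker g × P₁) →ₗ[R] (LinearMap.ker f × P₂) :=
    LinearMap.prod ((LinearMap.snd R _ _ - h' ∘ₗ B).codRestrict _ hB) B
  refine ⟨LinearEquiv.ofLinearMap Φ Ψ ?_ ?_⟩
  · apply LinearMap.ext
    rintro ⟨⟨b, hb⟩, p⟩
    refine Prod.ext (Subtype.ext ?_) ?_
    · change (b + h p) - h ((p - h' (b + h p)) + h' (b + h p)) = b
      rw [sub_add_cancel, add_sub_cancel_right]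
    · change (p - h' (b + h p)) + h' (b + h p) = p
      rw [sub_add_cancel]
  · apply LinearMap.ext
    rintro ⟨⟨a, ha⟩, p⟩
    refine Prod.ext (Subtype.ext ?_) ?_
    · change (a + h' p) - h' ((p - h (a + h' p)) + h (a + h' p)) = a
      rw [sub_add_cancel, add_sub_cancel_right]
    · change (p - h (a + h' p)) + h (a + h' p) = p
      rw [sub_add_cancel]

section Fox

variable {k : Type u} [CommRing k] {X : Type} [Fintype X] [DecidableEq X]

/-- Left translation on vectors. -/
noncomputable def tr (f : FreeGroup X) (v : X → MonoidAlgebra k (FreeGroup X)) :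
    X → MonoidAlgebra k (FreeGroup X) := (single f (1 : k)) • v

theorem tr_one (v : X → MonoidAlgebra k (FreeGroup X)) : tr 1 v = v := by
  rw [tr, ← MonoidAlgebra.one_def, one_smul]

theorem tr_mul (f g : FreeGroup X) (v : X → MonoidAlgebra k (FreeGroup X)) :
    tr (f * g) v = tr f (tr g v) := by
  rw [tr, tr, tr, smul_smul, MonoidAlgebra.single_mul_single, one_mul]

theorem tr_add (f : FreeGroup X) (v w : X → MonoidAlgebra k (FreeGroup X)) :
    tr f (v + w) = tr f v + tr f w := smul_add _ _ _

theorem tr_zero (f : FreeGroup X) : tr f (0 : X → MonoidAlgebra k (FreeGroup X)) = 0 :=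
  smul_zero _

/-- The affine maps whose composition defines the Fox derivatives. -/
noncomputable def foxPerm (k : Type u) [CommRing k] (x : X) :
    Equiv.Perm (X → MonoidAlgebra k (FreeGroup X)) where
  toFun v := Pi.single x 1 + tr (FreeGroup.of x) v
  invFun v := tr (FreeGroup.of x)⁻¹ (v - Pi.single x 1)
  left_inv v := by
    change tr (FreeGroup.of x)⁻¹ ((Pi.single x 1 + tr (FreeGroup.of x) v) - Pi.single x 1) = v
    rw [add_sub_cancel_left, ← tr_mul, inv_mul_cancel, tr_one]
  right_inv v := by
    change Pi.single x 1 + tr (FreeGroup.of x) (tr (FreeGroup.of x)⁻¹ (v - Pi.single x 1)) = v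
    rw [← tr_mul, mul_inv_cancel, tr_one, add_sub_cancel]

/-- The homomorphism to affine maps. -/
noncomputable def foxHom (k : Type u) [CommRing k] (X : Type) [Fintype X] [DecidableEq X] :
    FreeGroup X →* Equiv.Perm (X → MonoidAlgebra k (FreeGroup X)) :=
  FreeGroup.lift (foxPerm k)

/-- The Fox derivatives. -/
noncomputable def fox (k : Type u) [CommRing k] {X : Type} [Fintype X] [DecidableEq X]
    (f : FreeGroup X) : X → MonoidAlgebra k (FreeGroup X) := foxHom k X f 0

theorem foxHom_apply (f : FreeGroup X) (v : X → MonoidAlgebra k (FreeGroup X)) :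
    foxHom k X f v = fox k f + tr f v := by
  have hx : ∀ (x : X) v, foxHom k X (FreeGroup.of x) v = Pi.single x 1 + tr (FreeGroup.of x) v := by
    intro x v
    rw [foxHom, FreeGroup.lift_apply_of]; rfl
  have hx' : ∀ (x : X) v, foxHom k X (FreeGroup.of x)⁻¹ v
      = tr (FreeGroup.of x)⁻¹ (v - Pi.single x 1) := by
    intro x v
    rw [map_inv, foxHom, FreeGroup.lift_apply_of]; rfl
  have key : ∀ f : FreeGroup X, ∀ v, foxHom k X f v = foxHom k X f 0 + tr f v := by
    intro f
    induction f using FreeGroup.induction_on with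
    | C1 => intro v; rw [map_one, tr_one]; simp
    | of x => intro v; rw [hx, hx, tr_zero, add_zero]
    | inv_of x _ =>
      intro v
      have e := hx' x
      change foxHom k X (FreeGroup.of x)⁻¹ v = foxHom k X (FreeGroup.of x)⁻¹ 0 + tr _ v
      rw [e, e, ← tr_add]
      congr 1
      abel
    | mul f g hf hg =>
      intro v
      rw [map_mul]
      change foxHom k X f (foxHom k X g v) = foxHom k X f (foxHom k X g 0) + _
      rw [hf, hf (foxHom k X g 0), hg, tr_add, tr_mul, add_assoc]
  exact key f v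

theorem fox_mul (f g : FreeGroup X) : fox k (f * g) = fox k f + tr f (fox k g) := by
  rw [fox, map_mul]
  exact foxHom_apply f _

theorem fox_of (x : X) : fox k (FreeGroup.of x) = Pi.single x 1 := by
  rw [fox, foxHom, FreeGroup.lift_apply_of]
  change Pi.single x 1 + tr (FreeGroup.of x) 0 = _
  rw [tr_zero, add_zero]

variable {Q : Type v} [AddCommGroup Q] [Module k Q]

/-- The element `a ⊗ q`, as a finitely supported function. -/
noncomputable def tq (a : MonoidAlgebra k (FreeGroup X)) (q : Q) : FreeGroup X →₀ Q :=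
  a.coeff.mapRange (fun c => c • q) (zero_smul k q)

theorem tq_apply (a : MonoidAlgebra k (FreeGroup X)) (q : Q) (h : FreeGroup X) :
    tq a q h = a.coeff h • q := rfl

/-- The operator `D_x ⊗ Q`. -/
noncomputable def foxOp (k : Type u) [CommRing k] {X : Type} [Fintype X] [DecidableEq X]
    {Q : Type v} [AddCommGroup Q] [Module k Q] (x : X) : (FreeGroup X →₀ Q) →+ (FreeGroup X →₀ Q) :=
  Finsupp.liftAddHom (fun g =>
    { toFun := fun q => tq (fox k g x) q
      map_zero' := by ext h; rw [tq_apply, smul_zero]; rfl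
      map_add' := fun q q' => by
        ext h
        rw [Finsupp.add_apply, tq_apply, tq_apply, tq_apply, smul_add] })

theorem foxOp_single (x : X) (g : FreeGroup X) (q : Q) :
    foxOp k x (Finsupp.single g q) = tq (fox k g x) q := by
  rw [foxOp, Finsupp.liftAddHom_apply_single]; rfl

theorem foxOp_edge (x y : X) (g : FreeGroup X) (q : Q) :
    foxOp k x (Finsupp.single (g * FreeGroup.of y) q - Finsupp.single g q)
      = if y = x then Finsupp.single g q else 0 := by
  classical
  rw [map_sub, foxOp_single, foxOp_single, fox_mul, fox_of]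
  ext h
  rw [Finsupp.sub_apply, tq_apply, tq_apply, Pi.add_apply, MonoidAlgebra.coeff_add,
    Finsupp.add_apply, add_smul, add_sub_cancel_left, tr, Pi.smul_apply, smul_eq_mul]
  by_cases hxy : y = x
  · subst hxy
    rw [Pi.single_eq_same, mul_one, if_pos rfl, MonoidAlgebra.coeff_single, Finsupp.single_apply,
      Finsupp.single_apply]
    by_cases hh : g = h
    · rw [if_pos hh, if_pos hh, one_smul]
    · rw [if_neg hh, if_neg hh, zero_smul]
  · rw [Pi.single_eq_of_ne (fun h => hxy h.symm), mul_zero, if_neg hxy, MonoidAlgebra.coeff_zero,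
      Finsupp.zero_apply, zero_smul, Finsupp.zero_apply]

/-- **Freeness of the augmentation ideal**, with coefficients. -/
theorem fox_injective (q : X → FreeGroup X →₀ Q)
    (h : ∑ x, ((q x).sum fun g v => Finsupp.single (g * FreeGroup.of x) v - Finsupp.single g v)
      = 0) (x : X) : q x = 0 := by
  classical
  have h1 := congrArg (foxOp ℤ x) h
  rw [map_sum, map_zero] at h1
  rw [← h1, Finset.sum_eq_single x]
  · rw [Finsupp.sum, map_sum]
    simp only [foxOp_edge, if_true]
    exact (Finsupp.sum_single (q x)).symm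
  · intro y _ hy
    rw [Finsupp.sum, map_sum]
    refine Finset.sum_eq_zero (fun g _ => ?_)
    rw [foxOp_edge, if_neg hy]
  · intro h; exact absurd (Finset.mem_univ x) h

end Fox

end Pool.Agent.Lib.MP_551055_al
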