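import Mathlib
import Pool.Agent.Lib.MP_551055_al.Trim.Fox
import Pool.Agent.Lib.MP_551055_al.Trim.OneRelation

/-!
Let `k` be a principal ideal domain and `F` a free group of finite rank.  A finitely generated
submodule `M` of `k[F]^n` with `k`-torsion-free quotient is stably free.
-/

set_option autoImplicit false

set_option linter.unusedSectionVars false

namespace Pool.Agent.Lib.MP_551055_al

universe u v w z

open MonoidAlgebra

section Conn

variable {X : Type} [DecidableEq X]

/-- Connectedness to the identity inside a finite set, in the left Cayley graph. -/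
inductive Conn (Y : Finset (FreeGroup X)) : FreeGroup X → Prop
  | one : Conn Y 1
  | up (x : X) (b : FreeGroup X) : Conn Y b → b ∈ Y → FreeGroup.of x * b ∈ Y →
      Conn Y (FreeGroup.of x * b)
  | down (x : X) (b : FreeGroup X) : Conn Y b → b ∈ Y → (FreeGroup.of x)⁻¹ * b ∈ Y →
      Conn Y ((FreeGroup.of x)⁻¹ * b)

theorem Conn.mono {Y Y' : Finset (FreeGroup X)} (h : Y ⊆ Y') {b : FreeGroup X} (hb : Conn Y b) :
    Conn Y' b := by
  induction hb with
  | one => exact Conn.one
  | up x b _ h1 h2 ih => exact Conn.up x b ih (h h1) (h h2)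
  | down x b _ h1 h2 ih => exact Conn.down x b ih (h h1) (h h2)

/-- The set of vertices on the path from the identity to the value of a word. -/
def pathSet : List (X × Bool) → Finset (FreeGroup X)
  | [] => {1}
  | (l :: L) => insert (FreeGroup.mk (l :: L)) (pathSet L)

theorem mk_mem_pathSet (L : List (X × Bool)) : FreeGroup.mk L ∈ pathSet L := by
  cases L with
  | nil => simp [pathSet, FreeGroup.one_eq_mk]
  | cons l L => exact Finset.mem_insert_self _ _

theorem conn_pathSet (L : List (X × Bool)) : ∀ b ∈ pathSet L, Conn (pathSet L) b := by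
  induction L with
  | nil =>
    intro b hb
    simp only [pathSet, Finset.mem_singleton] at hb
    rw [hb]; exact Conn.one
  | cons l L ih =>
    intro b hb
    rw [pathSet, Finset.mem_insert] at hb
    have hsub : pathSet L ⊆ pathSet (l :: L) := Finset.subset_insert _ _
    rcases hb with rfl | hb
    · have h1 := (ih _ (mk_mem_pathSet L)).mono hsub
      have h2 := hsub (mk_mem_pathSet L)
      have h3 := mk_mem_pathSet (l :: L)
      obtain ⟨x, s⟩ := l
      have h4 : FreeGroup.mk ((x, s) :: L) = FreeGroup.mk [(x, s)] * FreeGroup.mk L := by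
        rw [FreeGroup.mul_mk]; rfl
      cases s with
      | true =>
        have h5 : FreeGroup.mk ((x, true) :: L) = FreeGroup.of x * FreeGroup.mk L := h4
        rw [h5]
        exact Conn.up x _ h1 h2 (h5 ▸ h3)
      | false =>
        have h5 : FreeGroup.mk ((x, false) :: L) = (FreeGroup.of x)⁻¹ * FreeGroup.mk L := h4
        rw [h5]
        exact Conn.down x _ h1 h2 (h5 ▸ h3)
    · exact (ih b hb).mono hsub

theorem exists_conn (Y0 : Finset (FreeGroup X)) :
    ∃ Y : Finset (FreeGroup X), Y0 ⊆ Y ∧ 1 ∈ Y ∧ ∀ b ∈ Y, Conn Y b := by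
  classical
  induction Y0 using Finset.induction_on with
  | empty => exact ⟨{1}, by simp, by simp, by simp; exact Conn.one⟩
  | insert a s _ ih =>
    obtain ⟨Y, h1, h2, h3⟩ := ih
    obtain ⟨L, rfl⟩ : ∃ L, FreeGroup.mk L = a := ⟨a.toWord, FreeGroup.mk_toWord⟩
    refine ⟨Y ∪ pathSet L, ?_, Finset.mem_union_left _ h2, ?_⟩
    · rw [Finset.insert_subset_iff]
      exact ⟨Finset.mem_union_right _ (mk_mem_pathSet L), h1.trans Finset.subset_union_left⟩
    · intro b hb
      rw [Finset.mem_union] at hb
      rcases hb with hb | hb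
      · exact (h3 b hb).mono Finset.subset_union_left
      · exact (conn_pathSet L b hb).mono Finset.subset_union_right

end Conn

section Main

variable {k : Type u} [CommRing k] [IsDomain k] [IsPrincipalIdealRing k] {X : Type} [Fintype X]
  [DecidableEq X] {n : ℕ}

/-- The edge operator. -/
noncomputable def edgeOp {Q : Type v} [AddCommGroup Q] (x : X) :
    (FreeGroup X →₀ Q) →+ (FreeGroup X →₀ Q) :=
  Finsupp.liftAddHom (fun g =>
    Finsupp.singleAddHom (g * FreeGroup.of x) - Finsupp.singleAddHom g)

theorem edgeOp_apply {Q : Type v} [AddCommGroup Q] (x : X) (q : FreeGroup X →₀ Q) :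
    edgeOp x q = q.sum fun g v => Finsupp.single (g * FreeGroup.of x) v - Finsupp.single g v := by
  rw [edgeOp, Finsupp.liftAddHom_apply]
  rfl

theorem edgeOp_single {Q : Type v} [AddCommGroup Q] (x : X) (g : FreeGroup X) (v : Q) :
    edgeOp x (Finsupp.single g v)
      = Finsupp.single (g * FreeGroup.of x) v - Finsupp.single g v := by
  rw [edgeOp, Finsupp.liftAddHom_apply_single]; rfl

/-- `r ↦ Σ_g g ⊗ r_g h_g v`, where `h_g v` is the translate by `g * y`. -/
noncomputable def gam {Q : Type v} [AddCommGroup Q] [Module k Q]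
    [Module (MonoidAlgebra k (FreeGroup X)) Q] (y : FreeGroup X) (v : Q) :
    MonoidAlgebra k (FreeGroup X) →+ (FreeGroup X →₀ Q) :=
  (Finsupp.liftAddHom (fun g => (Finsupp.singleAddHom g).comp
    ((AddMonoidHom.flip (smulAddHom k Q))
      ((single (g * y) (1 : k) : MonoidAlgebra k (FreeGroup X)) • v)))).comp
    (MonoidAlgebra.coeffAddEquiv (R := k) (M := FreeGroup X)).toAddMonoidHom

theorem gam_single {Q : Type v} [AddCommGroup Q] [Module k Q]
    [Module (MonoidAlgebra k (FreeGroup X)) Q] (y : FreeGroup X) (v : Q) (g : FreeGroup X) (a : k) :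
    gam y v (single g a : MonoidAlgebra k (FreeGroup X))
      = Finsupp.single g (a • ((single (g * y) (1 : k) : MonoidAlgebra k (FreeGroup X)) • v)) := by
  rw [gam, AddMonoidHom.comp_apply]
  change Finsupp.liftAddHom _ (Finsupp.single g a) = _
  rw [Finsupp.liftAddHom_apply_single]
  rfl

theorem gam_apply {Q : Type v} [AddCommGroup Q] [Module k Q]
    [Module (MonoidAlgebra k (FreeGroup X)) Q] (y : FreeGroup X) (v : Q)
    (r : MonoidAlgebra k (FreeGroup X)) (g : FreeGroup X) :
    gam y v r g
      = r.coeff g • ((single (g * y) (1 : k) : MonoidAlgebra k (FreeGroup X)) • v) := by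
  induction r using MonoidAlgebra.induction_linear with
  | zero => rw [map_zero, Finsupp.zero_apply, MonoidAlgebra.coeff_zero, Finsupp.zero_apply,
      zero_smul]
  | add r s hr hs => rw [map_add, Finsupp.add_apply, hr, hs, MonoidAlgebra.coeff_add,
      Finsupp.add_apply, add_smul]
  | single h a =>
    rw [gam_single, MonoidAlgebra.coeff_single, Finsupp.single_apply, Finsupp.single_apply]
    by_cases hh : h = g
    · subst hh; rw [if_pos rfl, if_pos rfl]
    · rw [if_neg hh, if_neg hh, zero_smul]

theorem exists_resolution (M : Submodule (MonoidAlgebra k (FreeGroup X))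
      (Fin n → MonoidAlgebra k (FreeGroup X))) (hM : M.FG)
    (htf : ∀ (a : k) (v : Fin n → MonoidAlgebra k (FreeGroup X)), a ≠ 0 → a • v ∈ M → v ∈ M) :
    ∃ (b : ℕ) (T : Type) (_ : Fintype T)
      (α : (Fin b → MonoidAlgebra k (FreeGroup X)) →ₗ[MonoidAlgebra k (FreeGroup X)]
        ((Fin n → MonoidAlgebra k (FreeGroup X)) ⧸ M))
      (δ : (T → MonoidAlgebra k (FreeGroup X)) →ₗ[MonoidAlgebra k (FreeGroup X)]
        (Fin b → MonoidAlgebra k (FreeGroup X))),
      Function.Surjective α ∧ Function.Injective δ ∧ LinearMap.ker α = LinearMap.range δ := by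
  classical
  let F := FreeGroup X
  let R := MonoidAlgebra k F
  let Q := (Fin n → R) ⧸ M
  -- torsion-freeness of the quotient
  have hQtf : Module.IsTorsionFree k Q := by
    rw [Module.isTorsionFree_iff_smul_eq_zero]
    intro a q haq
    by_cases ha : a = 0
    · exact Or.inl ha
    · right
      obtain ⟨v, rfl⟩ := M.mkQ_surjective q
      have h1 : M.mkQ (a • v) = 0 := haq
      rw [Submodule.mkQ_apply, Submodule.Quotient.mk_eq_zero] at h1
      rw [Submodule.mkQ_apply, Submodule.Quotient.mk_eq_zero]
      exact htf a v ha h1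
  obtain ⟨S, hS⟩ := hM
  let Y0 : Finset F := S.biUnion (fun v => Finset.univ.biUnion (fun i => (v i).coeff.support))
  obtain ⟨Y, hY0, hY1, hYc⟩ := exists_conn Y0
  let e : Fin n → F → (Fin n → R) := fun i b => Pi.single i (single b 1)
  have he : ∀ i b, e i b = (single b (1 : k) : R) • e i 1 := by
    intro i b
    simp only [e]
    rw [← Pi.single_smul, smul_eq_mul, MonoidAlgebra.single_mul_single, mul_one, mul_one]
  have he' : ∀ i (g b : F), (single g (1 : k) : R) • e i b = e i (g * b) := by
    intro i g b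
    rw [he i b, he i (g * b), smul_smul, MonoidAlgebra.single_mul_single, mul_one]
  let V : Submodule k Q := Submodule.span k (Set.range (fun p : Fin n × Y => M.mkQ (e p.1 p.2.1)))
  let Vx : X → Submodule k Q := fun x => Submodule.span k
    (Set.range (fun p : {p : Fin n × Y // FreeGroup.of x * p.2.1 ∈ Y} => M.mkQ (e p.1.1 p.1.2.1)))
  have hVx1 : ∀ x, Vx x ≤ V := by
    intro x
    apply Submodule.span_mono
    rintro _ ⟨p, rfl⟩
    exact ⟨p.1, rfl⟩
  have hVx2 : ∀ x, ∀ v ∈ Vx x, (single (FreeGroup.of x) (1 : k) : R) • v ∈ V := by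
    intro x v hv
    induction hv using Submodule.span_induction with
    | mem v hv =>
      obtain ⟨p, rfl⟩ := hv
      change (single (FreeGroup.of x) (1 : k) : R) • M.mkQ (e p.1.1 p.1.2.1) ∈ V
      rw [← map_smul, he']
      exact Submodule.subset_span ⟨(p.1.1, ⟨_, p.2⟩), rfl⟩
    | zero => rw [smul_zero]; exact V.zero_mem
    | add v w _ _ h1 h2 => rw [smul_add]; exact V.add_mem h1 h2
    | smul c v _ h1 => rw [smul_comm]; exact V.smul_mem c h1
  have : Module.Finite k V := Module.Finite.span_of_finite k (Set.finite_range _)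
  have : ∀ x, Module.Finite k (Vx x) := fun x => Module.Finite.span_of_finite k (Set.finite_range _)
  let d := Module.finrank k V
  let β := Module.finBasis k V
  let dx := fun x => Module.finrank k (Vx x)
  let βx := fun x => Module.finBasis k (Vx x)
  let br : V →ₗ[k] (Fin d → R) := LinearMap.pi (fun j => (Algebra.linearMap k R) ∘ₗ β.coord j)
  have hbr : ∀ v j, br v j = single 1 (β.repr v j) := fun v j => rfl
  let α : (Fin d → R) →ₗ[R] Q := Fintype.linearCombination R (fun j => (β j : Q))
  have hαbr : ∀ v, α (br v) = v := by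
    intro v
    conv_rhs => rw [← β.sum_repr v]
    simp only [α, Fintype.linearCombination_apply]
    rw [Submodule.coe_sum]
    refine Finset.sum_congr rfl (fun j _ => ?_)
    change algebraMap k R (β.repr v j) • (β j : Q) = _
    rw [algebraMap_smul]; rfl
  let xsm : ∀ x, Vx x → V := fun x v => ⟨(single (FreeGroup.of x) (1 : k) : R) • v.1, hVx2 x v.1 v.2⟩
  let incl : ∀ x, Vx x → V := fun x v => ⟨v.1, hVx1 x v.2⟩
  let lam : ∀ x, Vx x →ₗ[k] (Fin d → R) := fun x =>
    { toFun := fun v => (single (FreeGroup.of x) (1 : k) : R) • br (incl x v) - br (xsm x v)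
      map_add' := fun v w => by
        have h1 : incl x (v + w) = incl x v + incl x w := rfl
        have h2 : xsm x (v + w) = xsm x v + xsm x w := Subtype.ext (smul_add _ _ _)
        rw [h1, h2, map_add, map_add, smul_add]
        abel
      map_smul' := fun c v => by
        have h1 : incl x (c • v) = c • incl x v := rfl
        have h2 : xsm x (c • v) = c • xsm x v := Subtype.ext (smul_comm _ _ _)
        rw [h1, h2, map_smul, map_smul, RingHom.id_apply, smul_sub]
        congr 1
        exact smul_comm _ _ _ }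
  let T := Σ x : X, Fin (dx x)
  let δ : (T → R) →ₗ[R] (Fin d → R) :=
    Fintype.linearCombination R (fun t : T => lam t.1 (βx t.1 t.2))
  let D : Submodule R (Fin d → R) := LinearMap.range δ
  have hDlam : ∀ x v, lam x v ∈ D := by
    intro x v
    conv => rw [← (βx x).sum_repr v, map_sum]
    refine Submodule.sum_mem _ (fun j _ => ?_)
    rw [map_smul]
    apply Submodule.smul_of_tower_mem
    refine ⟨Pi.single ⟨x, j⟩ 1, ?_⟩
    simp only [δ]
    rw [Fintype.linearCombination_apply_single, one_smul]
  have hαδ : ∀ c, α (δ c) = 0 := by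
    intro c
    have h1 : ∀ x v, α (lam x v) = 0 := by
      intro x v
      change α ((single (FreeGroup.of x) (1 : k) : R) • br (incl x v) - br (xsm x v)) = 0
      rw [map_sub, map_smul, hαbr, hαbr]
      exact sub_self _
    simp only [δ, Fintype.linearCombination_apply, map_sum]
    refine Finset.sum_eq_zero (fun t _ => ?_)
    rw [map_smul, h1, smul_zero]
  -- the class of a vertex
  let vert : Fin n → Y → V := fun i b => ⟨M.mkQ (e i b.1), Submodule.subset_span ⟨(i, b), rfl⟩⟩
  have hB : ∀ i, ∀ b, Conn Y b → ∀ hb : b ∈ Y,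
      br (vert i ⟨b, hb⟩) - (single b (1 : k) : R) • br (vert i ⟨1, hY1⟩) ∈ D := by
    intro i b hc
    induction hc with
    | one =>
      intro hb
      rw [← MonoidAlgebra.one_def, one_smul, sub_self]
      exact D.zero_mem
    | up x b _ hbY _ ih =>
      intro hb
      have hm : M.mkQ (e i b) ∈ Vx x := Submodule.subset_span ⟨⟨(i, ⟨b, hbY⟩), hb⟩, rfl⟩
      have h1 := hDlam x ⟨_, hm⟩
      have h2 : lam x ⟨_, hm⟩ = (single (FreeGroup.of x) (1 : k) : R) • br (vert i ⟨b, hbY⟩)
          - br (vert i ⟨_, hb⟩) := by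
        change (single (FreeGroup.of x) (1 : k) : R) • br (vert i ⟨b, hbY⟩) - br (xsm x ⟨_, hm⟩) = _
        congr 2
        apply Subtype.ext
        change (single (FreeGroup.of x) (1 : k) : R) • M.mkQ (e i b)
          = M.mkQ (e i (FreeGroup.of x * b))
        rw [← map_smul, he']
      rw [h2] at h1
      have h3 := D.smul_mem (single (FreeGroup.of x) (1 : k) : R) (ih hbY)
      rw [smul_sub, smul_smul, MonoidAlgebra.single_mul_single, one_mul] at h3
      have h4 := D.sub_mem h3 h1
      convert h4 using 1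
      abel
    | down x b _ hbY _ ih =>
      intro hb
      have hb' : FreeGroup.of x * ((FreeGroup.of x)⁻¹ * b) ∈ Y := by
        rw [mul_inv_cancel_left]; exact hbY
      have hm : M.mkQ (e i ((FreeGroup.of x)⁻¹ * b)) ∈ Vx x :=
        Submodule.subset_span ⟨⟨(i, ⟨_, hb⟩), hb'⟩, rfl⟩
      have h1 := hDlam x ⟨_, hm⟩
      have h2 : lam x ⟨_, hm⟩ = (single (FreeGroup.of x) (1 : k) : R) • br (vert i ⟨_, hb⟩)
          - br (vert i ⟨b, hbY⟩) := by
        change (single (FreeGroup.of x) (1 : k) : R) • br (vert i ⟨_, hb⟩) - br (xsm x ⟨_, hm⟩) = _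
        congr 2
        apply Subtype.ext
        change (single (FreeGroup.of x) (1 : k) : R) • M.mkQ (e i ((FreeGroup.of x)⁻¹ * b))
          = M.mkQ (e i b)
        rw [← map_smul, he', mul_inv_cancel_left]
      rw [h2] at h1
      have h3 := D.smul_mem (single (FreeGroup.of x)⁻¹ (1 : k) : R) (D.add_mem h1 (ih hbY))
      rw [smul_add, smul_sub, smul_sub, smul_smul, smul_smul, MonoidAlgebra.single_mul_single,
        MonoidAlgebra.single_mul_single, one_mul, inv_mul_cancel, ← MonoidAlgebra.one_def,
        one_smul] at h3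
      convert h3 using 1
      abel
  -- the map back
  let ψ : (Fin n → R) →ₗ[R] ((Fin d → R) ⧸ D) :=
    Fintype.linearCombination R (fun i => D.mkQ (br (vert i ⟨1, hY1⟩)))
  have hψe : ∀ i (b : Y), ψ (e i b.1) = D.mkQ (br (vert i b)) := by
    intro i b
    simp only [ψ, e]
    rw [Fintype.linearCombination_apply_single, ← map_smul]
    symm
    rw [← sub_eq_zero, ← map_sub, Submodule.mkQ_apply, Submodule.Quotient.mk_eq_zero]
    exact hB i b.1 (hYc _ b.2) b.2
  let LY : Submodule k (Fin n → R) := Submodule.span k (Set.range (fun p : Fin n × Y => e p.1 p.2.1))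
  have hLY : ∀ v ∈ LY, ∃ h : M.mkQ v ∈ V, ψ v = D.mkQ (br ⟨M.mkQ v, h⟩) := by
    intro v hv
    induction hv using Submodule.span_induction with
    | mem v hv =>
      obtain ⟨p, rfl⟩ := hv
      exact ⟨Submodule.subset_span ⟨p, rfl⟩, hψe p.1 p.2⟩
    | zero =>
      refine ⟨by rw [map_zero]; exact V.zero_mem, ?_⟩
      rw [map_zero]
      have : (⟨M.mkQ 0, by rw [map_zero]; exact V.zero_mem⟩ : V) = 0 := Subtype.ext (map_zero _)
      rw [this, map_zero, map_zero]
    | add v w _ _ h1 h2 =>
      obtain ⟨h1, h1'⟩ := h1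
      obtain ⟨h2, h2'⟩ := h2
      refine ⟨by rw [map_add]; exact V.add_mem h1 h2, ?_⟩
      rw [map_add, h1', h2', ← map_add, ← map_add]
      congr 2
    | smul c v _ h1 =>
      obtain ⟨h1, h1'⟩ := h1
      refine ⟨V.smul_mem c h1, ?_⟩
      have h3 : ψ (c • v) = c • ψ v := by
        rw [← algebraMap_smul R c v, map_smul, algebraMap_smul]
      rw [h3, h1']
      have h4 : br ⟨M.mkQ (c • v), V.smul_mem c h1⟩ = c • br ⟨M.mkQ v, h1⟩ := by
        rw [← map_smul]; rfl
      rw [h4, ← algebraMap_smul R c (br _), map_smul, algebraMap_smul]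
  have hsupp : ∀ v : Fin n → R, (∀ i, (v i).coeff.support ⊆ Y) → v ∈ LY := by
    intro v hv
    have h1 : v = ∑ i, ∑ b ∈ (v i).coeff.support, ((v i).coeff b) • e i b := by
      rw [← Finset.univ_sum_single v]
      refine Finset.sum_congr rfl (fun i _ => ?_)
      have h2 : v i = ∑ b ∈ (v i).coeff.support, single b ((v i).coeff b) := by
        conv_lhs => rw [← MonoidAlgebra.sum_coeff_single (v i)]
        rfl
      have h3 : (Pi.single i (v i) : Fin n → R)
          = ∑ b ∈ (v i).coeff.support, Pi.single i (single b ((v i).coeff b)) := by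
        conv_lhs => rw [h2]
        rw [← LinearMap.single_apply (R := k) (φ := fun _ : Fin n => R), map_sum]
        rfl
      rw [Finset.univ_sum_single v, h3]
      refine Finset.sum_congr rfl (fun b _ => ?_)
      simp only [e]
      rw [← Pi.single_smul, MonoidAlgebra.smul_single, smul_eq_mul, mul_one]
    rw [h1]
    refine Submodule.sum_mem _ (fun i _ => Submodule.sum_mem _ (fun b hb => ?_))
    exact LY.smul_mem _ (Submodule.subset_span ⟨(i, ⟨b, hv i hb⟩), rfl⟩)
  have hMψ : M ≤ LinearMap.ker ψ := by
    rw [← hS, Submodule.span_le]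
    intro m hm
    have h1 : m ∈ LY := by
      apply hsupp
      intro i b hb
      apply hY0
      exact Finset.mem_biUnion.2 ⟨m, hm, Finset.mem_biUnion.2 ⟨i, Finset.mem_univ i, hb⟩⟩
    obtain ⟨h2, h3⟩ := hLY m h1
    have h4 : M.mkQ m = 0 := by
      rw [Submodule.mkQ_apply, Submodule.Quotient.mk_eq_zero, ← hS]
      exact Submodule.subset_span hm
    have h5 : (⟨M.mkQ m, h2⟩ : V) = 0 := Subtype.ext h4
    rw [h5, map_zero, map_zero] at h3
    exact h3
  let ψ' : Q →ₗ[R] ((Fin d → R) ⧸ D) := M.liftQ ψ hMψ
  have hψ'V : ∀ v : V, ψ' v.1 = D.mkQ (br v) := by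
    rintro ⟨v, hv⟩
    have h0 : ∀ v (hv : v ∈ V), ψ' v = D.mkQ (br ⟨v, hv⟩) := by
      intro v hv
      induction hv using Submodule.span_induction with
      | mem v hv =>
        obtain ⟨p, rfl⟩ := hv
        exact hψe p.1 p.2
      | zero =>
        rw [map_zero]
        have : (⟨0, V.zero_mem⟩ : V) = 0 := rfl
        rw [this, map_zero, map_zero]
      | add v w hv hw h1 h2 =>
        rw [map_add, h1, h2, ← map_add, ← map_add]
        rfl
      | smul c v hv h1 =>
        have h3 : ψ' (c • v) = c • ψ' v := by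
          rw [← algebraMap_smul R c v, map_smul, algebraMap_smul]
        rw [h3, h1]
        have h4 : br ⟨c • v, V.smul_mem c hv⟩ = c • br ⟨v, hv⟩ := by
          rw [← map_smul]; rfl
        rw [h4, ← algebraMap_smul R c (br _), map_smul, algebraMap_smul]
    exact h0 v hv
  have hbrβ : ∀ j, br (β j) = Pi.single j 1 := by
    intro j
    ext1 i
    rw [hbr, β.repr_self, Finsupp.single_apply]
    by_cases hij : j = i
    · subst hij
      rw [if_pos rfl, Pi.single_eq_same, MonoidAlgebra.one_def]
    · rw [if_neg hij, Pi.single_eq_of_ne (Ne.symm hij), MonoidAlgebra.single_zero]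
  have hψα : ∀ c, ψ' (α c) = D.mkQ c := by
    intro c
    have h1 : ψ' ∘ₗ α = D.mkQ := by
      apply LinearMap.pi_ext'
      intro j
      ext1
      simp only [LinearMap.comp_apply, LinearMap.single_apply]
      change ψ' (α (Pi.single j 1)) = D.mkQ (Pi.single j 1)
      simp only [α]
      rw [Fintype.linearCombination_apply_single, one_smul, hψ'V, hbrβ]
    exact DFunLike.congr_fun h1 c
  refine ⟨d, T, inferInstance, α, δ, ?_, ?_, ?_⟩
  · -- surjectivity
    intro q
    obtain ⟨v, rfl⟩ := M.mkQ_surjective q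
    have h1 : M.mkQ v = ∑ i, v i • M.mkQ (e i 1) := by
      conv_lhs => rw [← Finset.univ_sum_single v, map_sum]
      refine Finset.sum_congr rfl (fun i _ => ?_)
      rw [← map_smul]
      congr 1
      simp only [e]
      rw [← Pi.single_smul, smul_eq_mul, ← MonoidAlgebra.one_def, mul_one]
    refine ⟨∑ i, v i • br (vert i ⟨1, hY1⟩), ?_⟩
    rw [map_sum, h1]
    refine Finset.sum_congr rfl (fun i _ => ?_)
    rw [map_smul, hαbr]
  · -- injectivity
    have hgam0 : ∀ (y : F) (v : V) (r : R), ∑ j, gam y (β j : Q) ((r • br v) j) = gam y (v : Q) r := by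
      intro y v r
      ext g
      rw [Finsupp.finsetSum_apply, gam_apply]
      have h1 : (v : Q) = ∑ j, (β.repr v j) • (β j : Q) := by
        conv_lhs => rw [← β.sum_repr v]
        rw [Submodule.coe_sum]; rfl
      rw [h1, Finset.smul_sum, Finset.smul_sum]
      refine Finset.sum_congr rfl (fun j _ => ?_)
      rw [gam_apply, Pi.smul_apply, smul_eq_mul, hbr, MonoidAlgebra.coeff_mul_single_apply, inv_one,
        mul_one, smul_comm (single (g * y) (1 : k) : R) (β.repr v j), mul_smul]
    have hgamx : ∀ (x : X) (v : Q) (r : R),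
        gam 1 v (r * single (FreeGroup.of x) (1 : k))
          - gam 1 ((single (FreeGroup.of x) (1 : k) : R) • v) r
          = edgeOp x (gam (FreeGroup.of x) v r) := by
      intro x v r
      induction r using MonoidAlgebra.induction_linear with
      | zero => rw [zero_mul, map_zero, map_zero, map_zero, map_zero, sub_zero]
      | add r s hr hs =>
        rw [add_mul, map_add, map_add, map_add, map_add, ← hr, ← hs]; abel
      | single h a =>
        rw [MonoidAlgebra.single_mul_single, mul_one, gam_single, gam_single, gam_single,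
          edgeOp_single, mul_one, mul_one, smul_smul (single h (1 : k) : R),
          MonoidAlgebra.single_mul_single, one_mul]
    rw [← LinearMap.ker_eq_bot, eq_bot_iff]
    intro c hc
    have hc0 : δ c = 0 := hc
    have h1 : ∑ j, gam 1 (β j : Q) ((δ c) j) = 0 := by
      rw [hc0]
      exact Finset.sum_eq_zero (fun j _ => by rw [Pi.zero_apply, map_zero])
    have h2 : ∀ t : T, ∑ j, gam 1 (β j : Q) ((c t • lam t.1 (βx t.1 t.2)) j)
        = edgeOp t.1 (gam (FreeGroup.of t.1) (βx t.1 t.2 : Q) (c t)) := by
      intro t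
      have h3 : c t • lam t.1 (βx t.1 t.2)
          = (c t * single (FreeGroup.of t.1) (1 : k)) • br (incl t.1 (βx t.1 t.2))
            - c t • br (xsm t.1 (βx t.1 t.2)) := by
        rw [mul_smul, ← smul_sub]; rfl
      rw [h3]
      simp only [Pi.sub_apply, map_sub]
      rw [Finset.sum_sub_distrib, hgam0, hgam0, ← hgamx]
    have h3 : ∑ t : T, edgeOp t.1 (gam (FreeGroup.of t.1) (βx t.1 t.2 : Q) (c t)) = 0 := by
      rw [← h1]
      simp only [δ, Fintype.linearCombination_apply, Finset.sum_apply, map_sum]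
      rw [Finset.sum_comm]
      exact Finset.sum_congr rfl (fun t _ => (h2 t).symm)
    let q : X → FreeGroup X →₀ Q := fun x => ∑ j, gam (FreeGroup.of x) (βx x j : Q) (c ⟨x, j⟩)
    have h4 : ∀ x, q x = 0 := by
      apply fox_injective q
      rw [← h3, Fintype.sum_sigma]
      refine Finset.sum_congr rfl (fun x _ => ?_)
      rw [← edgeOp_apply, map_sum]
    rw [Submodule.mem_bot]
    funext t
    obtain ⟨x, j⟩ := t
    have h5 : ∀ g, ∑ j, (c ⟨x, j⟩).coeff g • βx x j = 0 := by
      intro g
      apply Subtype.ext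
      have h6 := congrArg (fun z => z g) (h4 x)
      simp only [q] at h6
      rw [Finsupp.finsetSum_apply, Finsupp.zero_apply] at h6
      simp only [gam_apply] at h6
      have h7 : (single (g * FreeGroup.of x) (1 : k) : R) •
          (∑ j, (c ⟨x, j⟩).coeff g • (βx x j : Q)) = 0 := by
        rw [Finset.smul_sum, ← h6]
        refine Finset.sum_congr rfl (fun j _ => ?_)
        rw [smul_comm]
      have h8 : (single (g * FreeGroup.of x)⁻¹ (1 : k) : R) •
          ((single (g * FreeGroup.of x) (1 : k) : R) •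
          (∑ j, (c ⟨x, j⟩).coeff g • (βx x j : Q))) = 0 := by rw [h7, smul_zero]
      rw [smul_smul, MonoidAlgebra.single_mul_single, inv_mul_cancel, mul_one,
        ← MonoidAlgebra.one_def, one_smul] at h8
      rw [Submodule.coe_sum]
      exact h8
    ext g
    have h6 := (Fintype.linearIndependent_iff.1 (βx x).linearIndependent)
      (fun j => (c ⟨x, j⟩).coeff g) (h5 g) j
    simpa using h6
  · -- exactness
    apply le_antisymm
    · intro c hc
      have h1 := hψα c
      rw [LinearMap.mem_ker.1 hc, map_zero] at h1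
      exact (Submodule.Quotient.mk_eq_zero _).1 h1.symm
    · rintro _ ⟨c, rfl⟩
      exact hαδ c

/-- Finitely generated submodules of `k[F]^n` with torsion-free quotient are stably free. -/
theorem stFree_submodule (M : Submodule (MonoidAlgebra k (FreeGroup X))
      (Fin n → MonoidAlgebra k (FreeGroup X))) (hM : M.FG)
    (htf : ∀ (a : k) (v : Fin n → MonoidAlgebra k (FreeGroup X)), a ≠ 0 → a • v ∈ M → v ∈ M) :
    StFree (MonoidAlgebra k (FreeGroup X)) M := by
  classical
  obtain ⟨b, T, hT, α, δ, h1, h2, h3⟩ := exists_resolution M hM htf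
  obtain ⟨e⟩ := schanuel M.mkQ α M.mkQ_surjective h1
  have e1 : LinearMap.ker M.mkQ ≃ₗ[MonoidAlgebra k (FreeGroup X)] M :=
    LinearEquiv.ofEq _ _ (Submodule.ker_mkQ M)
  have e2 : LinearMap.ker α ≃ₗ[MonoidAlgebra k (FreeGroup X)]
      (Fin (Fintype.card T) → MonoidAlgebra k (FreeGroup X)) :=
    (LinearEquiv.ofEq _ _ h3).trans ((LinearEquiv.ofInjective δ h2).symm.trans
      (LinearEquiv.funCongrLeft _ _ (Fintype.equivFin T).symm))
  exact ⟨b, Fintype.card T + n, ⟨(LinearEquiv.prodCongr e1.symm (LinearEquiv.refl _ _)).trans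
    (e.trans ((LinearEquiv.prodCongr e2 (LinearEquiv.refl _ _)).trans
      ((LinearEquiv.sumArrowLequivProdArrow (Fin (Fintype.card T)) (Fin n) _ _).symm.trans
      (LinearEquiv.funCongrLeft _ _ finSumFinEquiv.symm))))⟩⟩

end Main

end Pool.Agent.Lib.MP_551055_al
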