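import Mathlib
import Pool.Agent.Lib.MP_551055_al.Trim.Descent
import Pool.Agent.Lib.MP_551055_al.Trim.FreeGroupFFR
import Pool.Agent.Lib.MP_551055_al.Trim.Matrices
import Pool.Agent.Lib.MP_551055_al.Trim.OneRelation

/-!
Projective modules over `ℤ[G]` whose relations are, with one exception, defined over `ℤ[H]` for a
free subgroup `H`.
-/

set_option autoImplicit false

set_option linter.unusedSectionVars false

namespace Pool.Agent.Lib.MP_551055_al

universe u v w z

open MonoidAlgebra

variable {G : Type u} [Group G] {X : Type} [Fintype X] [DecidableEq X] {n : ℕ}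

theorem mem_support_inc_mul {H : Type v} [Group H] {k : Type w} [CommRing k] (φ : H →* G)
    (a : MonoidAlgebra k H) (b : MonoidAlgebra k G) (g : G) (h : (inc k φ a * b).coeff g ≠ 0) :
    ∃ (t : H) (y : G), b.coeff y ≠ 0 ∧ g = φ t * y := by
  induction a using MonoidAlgebra.induction_linear with
  | zero => simp at h
  | add a a' ha ha' =>
    rw [map_add, add_mul, MonoidAlgebra.coeff_add, Finsupp.add_apply] at h
    by_cases h1 : (inc k φ a * b).coeff g = 0
    · rw [h1, zero_add] at h; exact ha' h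
    · exact ha h1
  | single t c =>
    rw [inc_single, MonoidAlgebra.coeff_single_mul_apply] at h
    exact ⟨t, (φ t)⁻¹ * g, right_ne_zero_of_mul h, by rw [mul_inv_cancel_left]⟩

/-- Vectors over `ℚ[F]` fixed by an idempotent over `ℚ[G]` form a direct summand. -/
theorem exists_eps (φ : FreeGroup X →* G) (hφ : Function.Injective φ)
    (E : Matrix (Fin n) (Fin n) (MonoidAlgebra ℚ G)) :
    ∃ ε : Matrix (Fin n) (Fin n) (MonoidAlgebra ℚ (FreeGroup X)), ε * ε = ε ∧
      (ε.map (inc ℚ φ)) * E = ε.map (inc ℚ φ) ∧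
      (∀ v : Fin n → MonoidAlgebra ℚ (FreeGroup X),
        Matrix.vecMul (incv ℚ φ v) E = incv ℚ φ v → Matrix.vecMul v ε = v) ∧
      ∃ z : ℤ, tau ε = (z : ℚ) := by
  classical
  let L := MonoidAlgebra ℚ (FreeGroup X)
  set A := 1 - E with hA
  let S : Finset G := Finset.univ.biUnion (fun i => Finset.univ.biUnion
    (fun j => (A i j).coeff.support))
  let J := {y // y ∈ S} × Fin n
  let m := Fintype.card J
  let eJ : J ≃ Fin m := Fintype.equivFin J
  let c : Matrix (Fin n) (Fin m) L := fun i q =>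
    prj ℚ φ hφ (A i (eJ.symm q).2 * single ((eJ.symm q).1.1)⁻¹ 1)
  let ψ := Matrix.toLinearMapRight' c
  have hψ : ∀ v, ψ v = 0 ↔ Matrix.vecMul (incv ℚ φ v) A = 0 := by
    intro v
    have h1 : ∀ q, ψ v q = prj ℚ φ hφ (Matrix.vecMul (incv ℚ φ v) A (eJ.symm q).2
        * single ((eJ.symm q).1.1)⁻¹ 1) := by
      intro q
      change ∑ i, v i * prj ℚ φ hφ (A i (eJ.symm q).2 * single ((eJ.symm q).1.1)⁻¹ 1)
        = prj ℚ φ hφ ((∑ i, inc ℚ φ (v i) * A i (eJ.symm q).2) * single ((eJ.symm q).1.1)⁻¹ 1)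
      rw [Finset.sum_mul, map_sum]
      refine Finset.sum_congr rfl (fun i _ => ?_)
      rw [mul_assoc, prj_inc_mul]
    constructor
    · intro h0
      by_contra hne
      obtain ⟨j, hj⟩ : ∃ j, Matrix.vecMul (incv ℚ φ v) A j ≠ 0 := by
        by_contra hcon
        push Not at hcon
        exact hne (funext hcon)
      obtain ⟨g, hg⟩ : ∃ g, (Matrix.vecMul (incv ℚ φ v) A j).coeff g ≠ 0 := by
        by_contra hcon
        push Not at hcon
        exact hj (by ext g; simpa using hcon g)
      have hg' := hg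
      have h2 : (Matrix.vecMul (incv ℚ φ v) A j).coeff g
          = ∑ i, (inc ℚ φ (v i) * A i j).coeff g := by
        change (∑ i, inc ℚ φ (v i) * A i j).coeff g = _
        rw [MonoidAlgebra.coeff_sum, Finsupp.finsetSum_apply]
      rw [h2] at hg
      obtain ⟨i, -, hi⟩ := Finset.exists_ne_zero_of_sum_ne_zero hg
      obtain ⟨t, y, hy, rfl⟩ := mem_support_inc_mul φ (v i) (A i j) g hi
      have hyS : y ∈ S := Finset.mem_biUnion.2 ⟨i, Finset.mem_univ i,
        Finset.mem_biUnion.2 ⟨j, Finset.mem_univ j, Finsupp.mem_support_iff.2 hy⟩⟩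
      have h3 := h1 (eJ ⟨⟨y, hyS⟩, j⟩)
      rw [h0, Equiv.symm_apply_apply] at h3
      have h4 := congrArg (fun z => z.coeff t) h3
      simp only [Pi.zero_apply, MonoidAlgebra.coeff_zero, Finsupp.zero_apply] at h4
      rw [prj_coeff, MonoidAlgebra.coeff_mul_single_apply, inv_inv, mul_one] at h4
      exact hg' h4.symm
    · intro h0
      funext q
      rw [h1, h0]
      simp
  have hFG : (LinearMap.range ψ).FG := by
    rw [LinearMap.range_eq_map]
    exact (Module.Finite.fg_top (R := L) (M := Fin n → L)).map ψ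
  have hst : StFree L (LinearMap.range ψ) := by
    apply stFree_submodule _ hFG
    intro a v ha hv
    have : v = a⁻¹ • (a • v) := by rw [smul_smul, inv_mul_cancel₀ ha, one_smul]
    rw [this]
    exact Submodule.smul_of_tower_mem _ _ hv
  have hproj : Module.Projective L (LinearMap.range ψ) := hst.projective
  obtain ⟨σ, hσ⟩ := Module.projective_lifting_property ψ.rangeRestrict LinearMap.id
    ψ.surjective_rangeRestrict
  have hσ' : ∀ y, ψ.rangeRestrict (σ y) = y := fun y => DFunLike.congr_fun hσ y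
  let q : (Fin n → L) →ₗ[L] (Fin n → L) := σ ∘ₗ ψ.rangeRestrict
  have hψq : ∀ v, ψ (q v) = ψ v := fun v => congrArg Subtype.val (hσ' (ψ.rangeRestrict v))
  have hq0 : ∀ v, ψ v = 0 → q v = 0 := by
    intro v hv
    have : ψ.rangeRestrict v = 0 := Subtype.ext hv
    change σ (ψ.rangeRestrict v) = 0
    rw [this, map_zero]
  have hqq : ∀ v, q (q v) = q v := by
    intro v
    change σ (ψ.rangeRestrict (q v)) = σ (ψ.rangeRestrict v)
    congr 1
    exact Subtype.ext (hψq v)
  obtain ⟨Mq, hMq⟩ := (Matrix.toLinearMapRight' (m := Fin n) (n := Fin n) (R := L)).surjective q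
  have hMq' : ∀ v, Matrix.vecMul v Mq = q v := fun v => DFunLike.congr_fun hMq v
  have hMqq : Mq * Mq = Mq := by
    apply (Matrix.toLinearMapRight' (m := Fin n) (n := Fin n) (R := L)).injective
    rw [Matrix.toLinearMapRight'_mul, hMq]
    exact LinearMap.ext hqq
  have hvε : ∀ v, Matrix.vecMul v (1 - Mq) = v - q v := by
    intro v
    rw [Matrix.vecMul_sub, Matrix.vecMul_one, hMq']
  refine ⟨1 - Mq, ?_, ?_, ?_, ?_⟩
  · rw [Matrix.mul_sub, Matrix.mul_one, Matrix.sub_mul, Matrix.one_mul, hMqq, sub_self, sub_zero]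
  · -- rows are fixed by `E`
    have h1 : ((1 - Mq).map (inc ℚ φ)) * A = 0 := by
      ext1 i j
      have h2 : ψ ((1 - Mq) i) = 0 := by
        have h3 : (1 - Mq) i = Matrix.vecMul (Pi.single i 1) (1 - Mq) := by
          rw [Matrix.single_one_vecMul]; rfl
        rw [h3, hvε, map_sub, hψq, sub_self]
      have h4 := congrFun ((hψ _).1 h2) j
      exact h4
    rw [hA, Matrix.mul_sub, Matrix.mul_one, sub_eq_zero] at h1
    exact h1.symm
  · intro v hv
    have h1 : ψ v = 0 := by
      rw [hψ, hA, Matrix.vecMul_sub, Matrix.vecMul_one, hv, sub_self]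
    rw [hvε, hq0 v h1, sub_zero]
  · -- the trace
    have h1 : StFree L (LinearMap.range (Matrix.toLinearMapRight' Mq)) := by
      refine hst.congr ?_
      rw [hMq]
      let f : LinearMap.range ψ →ₗ[L] LinearMap.range q :=
        σ.codRestrict _ (fun y => by
          obtain ⟨v, hv⟩ := y.2
          refine ⟨v, ?_⟩
          change σ (ψ.rangeRestrict v) = σ y
          congr 1
          exact Subtype.ext hv)
      refine LinearEquiv.ofBijective f ⟨?_, ?_⟩
      · intro y y' hyy
        have h2 : σ y = σ y' := congrArg Subtype.val hyy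
        rw [← hσ' y, ← hσ' y', h2]
      · rintro ⟨_, v, rfl⟩
        exact ⟨ψ.rangeRestrict v, rfl⟩
    obtain ⟨z, hz⟩ := tau_of_stFree Mq hMqq h1
    refine ⟨n - z, ?_⟩
    rw [tau_sub, tau_one, hz]
    simp

end Pool.Agent.Lib.MP_551055_al
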