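import Mathlib
import Pool.Agent.Lib.MP_551055_al.Trim.Compat
import Pool.Agent.Lib.MP_551055_al.Trim.Descent
import Pool.Agent.Lib.MP_551055_al.Trim.Dual
import Pool.Agent.Lib.MP_551055_al.Trim.FreeGroupFFR
import Pool.Agent.Lib.MP_551055_al.Trim.FreeSubgroup
import Pool.Agent.Lib.MP_551055_al.Trim.Matrices
import Pool.Agent.Lib.MP_551055_al.Trim.OneRelation

/-!
Projective modules over `ℤ[G]` whose relations are, with one exception, defined over `ℤ[H]` for a
free subgroup `H`.
-/

set_option autoImplicit false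

set_option linter.unusedSectionVars false

namespace Pool.Agent.Lib.MP_551055_al

universe u v w z

open MonoidAlgebra

variable {G : Type u} [Group G] {X : Type} [Fintype X] [DecidableEq X] {n : ℕ}

theorem vecMul_mem_of_rows {R : Type u} [Ring R] (M : Matrix (Fin n) (Fin n) R)
    (K : Submodule R (Fin n → R)) (hM : ∀ i, M i ∈ K) (v : Fin n → R) :
    Matrix.vecMul v M ∈ K := by
  have h : Matrix.vecMul v M = ∑ i, v i • M i := by
    funext j
    rw [Finset.sum_apply]
    rfl
  rw [h]
  exact Submodule.sum_mem _ (fun i _ => Submodule.smul_mem _ _ (hM i))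

/-- The descent lemma. -/
theorem stFree_of_descent (φ : FreeGroup X →* G) (hφ : Function.Injective φ)
    (e₁ : Matrix (Fin n) (Fin n) (MonoidAlgebra ℤ G))
    (W : Submodule (MonoidAlgebra ℤ (FreeGroup X)) (Fin n → MonoidAlgebra ℤ (FreeGroup X)))
    (h1 : ∀ i, e₁ i ∈ Submodule.span (MonoidAlgebra ℤ G) (incv ℤ φ '' W))
    (h2 : ∀ v ∈ W, Matrix.vecMul (incv ℤ φ v) e₁ = incv ℤ φ v) :
    StFree (MonoidAlgebra ℤ G) (LinearMap.range (Matrix.toLinearMapRight' (1 - e₁))) := by
  classical
  set ε₀ : Matrix (Fin n) (Fin n) (MonoidAlgebra ℤ (FreeGroup X)) := e₁.map (prj ℤ φ hφ) with hε₀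
  have hw : ∀ v ∈ W, Matrix.vecMul v ε₀ = v := by
    intro v hv
    rw [hε₀, ← prjv_incv_vecMul, h2 v hv, prjv_incv]
  have hprj : ∀ z ∈ Submodule.span (MonoidAlgebra ℤ G) (incv ℤ φ '' W), ∀ r : MonoidAlgebra ℤ G,
      prjv ℤ φ hφ (r • z) ∈ W := by
    intro z hz
    induction hz using Submodule.span_induction with
    | mem x hx =>
      obtain ⟨v, hv, rfl⟩ := hx
      intro r
      rw [prjv_smul_incv]
      exact W.smul_mem _ hv
    | zero => intro r; rw [smul_zero, prjv_zero]; exact W.zero_mem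
    | add x y _ _ hx hy => intro r; rw [smul_add, prjv_add]; exact W.add_mem (hx r) (hy r)
    | smul a x _ hx => intro r; rw [smul_smul]; exact hx _
  have hrow : ∀ i, ε₀ i ∈ W := by
    intro i
    have h := hprj (e₁ i) (h1 i) 1
    rw [one_smul] at h
    exact h
  have hidem : ε₀ * ε₀ = ε₀ := by
    funext i
    rw [Matrix.mul_apply_eq_vecMul]
    exact hw _ (hrow i)
  have hinc : ∀ z ∈ Submodule.span (MonoidAlgebra ℤ G) (incv ℤ φ '' W),
      Matrix.vecMul z (ε₀.map (inc ℤ φ)) = z := by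
    intro z hz
    induction hz using Submodule.span_induction with
    | mem x hx =>
      obtain ⟨v, hv, rfl⟩ := hx
      rw [← incv_vecMul, hw v hv]
    | zero => rw [Matrix.zero_vecMul]
    | add x y _ _ hx hy => rw [Matrix.add_vecMul, hx, hy]
    | smul a x _ hx => rw [vecMul_smul', hx]
  have ha : e₁ * ε₀.map (inc ℤ φ) = e₁ := by
    funext i
    rw [Matrix.mul_apply_eq_vecMul]
    exact hinc _ (h1 i)
  have hb : ε₀.map (inc ℤ φ) * e₁ = ε₀.map (inc ℤ φ) := by
    funext i
    rw [Matrix.mul_apply_eq_vecMul]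
    exact h2 _ (hrow i)
  have hst : StFree (MonoidAlgebra ℤ (FreeGroup X))
      (LinearMap.range (Matrix.toLinearMapRight' (1 - ε₀))) := by
    apply stFree_submodule
    · rw [LinearMap.range_eq_map]
      exact (Module.Finite.fg_top (R := MonoidAlgebra ℤ (FreeGroup X))
        (M := Fin n → MonoidAlgebra ℤ (FreeGroup X))).map _
    · intro a v ha hv
      obtain ⟨y, hy⟩ := hv
      have h3 : Matrix.vecMul (a • v) ε₀ = 0 := by
        rw [← hy]
        change Matrix.vecMul (Matrix.vecMul y (1 - ε₀)) ε₀ = 0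
        rw [Matrix.vecMul_vecMul, Matrix.sub_mul, Matrix.one_mul, hidem, sub_self,
          Matrix.vecMul_zero]
      have h4 : a • Matrix.vecMul v ε₀ = 0 := by
        rw [← h3]
        funext j
        change a • ∑ i, v i * ε₀ i j = ∑ i, (a • v i) * ε₀ i j
        rw [Finset.smul_sum]
        exact Finset.sum_congr rfl (fun i _ => (smul_mul_assoc _ _ _).symm)
      have h5 : Matrix.vecMul v ε₀ = 0 := by
        funext j
        ext g
        have h6 := congrArg (fun z => z.coeff g) (congrFun h4 j)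
        simp only [Pi.smul_apply, MonoidAlgebra.coeff_smul, Finsupp.smul_apply, Pi.zero_apply,
          MonoidAlgebra.coeff_zero, Finsupp.zero_apply, smul_eq_mul, mul_eq_zero] at h6
        exact h6.resolve_left ha
      refine ⟨v, ?_⟩
      change Matrix.vecMul v (1 - ε₀) = v
      rw [Matrix.vecMul_sub, Matrix.vecMul_one, h5, sub_zero]
  have hst2 := stFree_map (inc ℤ φ) (1 - ε₀) (by
    rw [Matrix.mul_sub, Matrix.mul_one, Matrix.sub_mul, Matrix.one_mul, hidem, sub_self,
      sub_zero]) hst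
  have hmap : (1 - ε₀).map (inc ℤ φ) = 1 - ε₀.map (inc ℤ φ) := by
    rw [Matrix.map_sub _ (map_sub _), Matrix.map_one _ (map_zero _) (map_one _)]
  rw [hmap] at hst2
  obtain ⟨Φ⟩ := complement_equiv (ε₀.map (inc ℤ φ)) e₁ hb ha
  exact hst2.congr Φ

/-- Vectors over `ℤ[H]` fixed by `e`. -/
noncomputable def fixedW (φ : FreeGroup X →* G)
    (e : Matrix (Fin n) (Fin n) (MonoidAlgebra ℤ G)) :
    Submodule (MonoidAlgebra ℤ (FreeGroup X)) (Fin n → MonoidAlgebra ℤ (FreeGroup X)) where
  carrier := {v | Matrix.vecMul (incv ℤ φ v) e = incv ℤ φ v}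
  add_mem' := by
    intro a b ha hb
    have h : incv ℤ φ (a + b) = incv ℤ φ a + incv ℤ φ b := funext fun _ => map_add _ _ _
    change Matrix.vecMul (incv ℤ φ (a + b)) e = incv ℤ φ (a + b)
    rw [h, Matrix.add_vecMul]
    exact congrArg₂ _ ha hb
  zero_mem' := by
    have h : incv ℤ φ (0 : Fin n → MonoidAlgebra ℤ (FreeGroup X)) = 0 :=
      funext fun _ => map_zero _
    change Matrix.vecMul (incv ℤ φ 0) e = incv ℤ φ 0
    rw [h, Matrix.zero_vecMul]
  smul_mem' := by
    intro a b hb
    change Matrix.vecMul (incv ℤ φ (a • b)) e = incv ℤ φ (a • b)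
    rw [incv_smul, vecMul_smul']
    exact congrArg _ hb

theorem mem_fixedW (φ : FreeGroup X →* G)
    (e : Matrix (Fin n) (Fin n) (MonoidAlgebra ℤ G)) (v : Fin n → MonoidAlgebra ℤ (FreeGroup X)) :
    v ∈ fixedW φ e ↔ Matrix.vecMul (incv ℤ φ v) e = incv ℤ φ v := Iff.rfl

theorem fixed_of_mem_span (φ : FreeGroup X →* G)
    (e : Matrix (Fin n) (Fin n) (MonoidAlgebra ℤ G)) :
    ∀ z ∈ Submodule.span (MonoidAlgebra ℤ G) (incv ℤ φ '' fixedW φ e), Matrix.vecMul z e = z := by
  intro z hz
  induction hz using Submodule.span_induction with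
  | mem x hx =>
    obtain ⟨v, hv, rfl⟩ := hx
    exact hv
  | zero => rw [Matrix.zero_vecMul]
  | add x y _ _ hx hy => rw [Matrix.add_vecMul, hx, hy]
  | smul a x _ hx => rw [vecMul_smul', hx]

theorem eps_of_mem_span (φ : FreeGroup X →* G)
    (e : Matrix (Fin n) (Fin n) (MonoidAlgebra ℤ G))
    (ε : Matrix (Fin n) (Fin n) (MonoidAlgebra ℚ (FreeGroup X)))
    (h3 : ∀ v : Fin n → MonoidAlgebra ℚ (FreeGroup X),
      Matrix.vecMul (incv ℚ φ v) (e.map (cQ G)) = incv ℚ φ v → Matrix.vecMul v ε = v) :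
    ∀ z ∈ Submodule.span (MonoidAlgebra ℤ G) (incv ℤ φ '' fixedW φ e),
      Matrix.vecMul (cv z) (ε.map (inc ℚ φ)) = cv z := by
  intro z hz
  induction hz using Submodule.span_induction with
  | mem x hx =>
    obtain ⟨v, hv, rfl⟩ := hx
    rw [cv_incv, ← incv_vecMul, h3]
    rw [← cv_incv, ← cv_vecMul]
    exact congrArg _ hv
  | zero =>
    have h : cv (0 : Fin n → MonoidAlgebra ℤ G) = 0 := funext fun _ => map_zero _
    rw [h, Matrix.zero_vecMul]
  | add x y _ _ hx hy => rw [cv_add, Matrix.add_vecMul, hx, hy]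
  | smul a x _ hx => rw [cv_smul, vecMul_smul', hx]

/-- If the complementary projection vanishes, all rows are defined over the subgroup. -/
theorem mem_span_of_eps (φ : FreeGroup X →* G) (hφ : Function.Injective φ)
    (e : Matrix (Fin n) (Fin n) (MonoidAlgebra ℤ G))
    (ε : Matrix (Fin n) (Fin n) (MonoidAlgebra ℚ (FreeGroup X)))
    (h2 : (ε.map (inc ℚ φ)) * (e.map (cQ G)) = ε.map (inc ℚ φ))
    (h0 : (e.map (cQ G)) * (ε.map (inc ℚ φ)) = e.map (cQ G)) (z : Fin n → MonoidAlgebra ℤ G)
    (hz : Matrix.vecMul z e = z) :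
    z ∈ Submodule.span (MonoidAlgebra ℤ G) (incv ℤ φ '' fixedW φ e) := by
  refine Submodule.span_mono ?_ (mem_span_prjv φ hφ z)
  rintro _ ⟨x, rfl⟩
  refine ⟨_, ?_, rfl⟩
  have hz' : Matrix.vecMul ((single x⁻¹ (1 : ℤ) : MonoidAlgebra ℤ G) • z) e
      = (single x⁻¹ (1 : ℤ) : MonoidAlgebra ℤ G) • z := by rw [vecMul_smul', hz]
  set y := (single x⁻¹ (1 : ℤ) : MonoidAlgebra ℤ G) • z with hy
  have h3 : Matrix.vecMul (cv y) (ε.map (inc ℚ φ)) = cv y := by
    have h4 : Matrix.vecMul (cv y) (e.map (cQ G)) = cv y := by rw [← cv_vecMul, hz']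
    rw [← h4, Matrix.vecMul_vecMul, h0]
  have h5 : Matrix.vecMul (cv (prjv ℤ φ hφ y)) ε = cv (prjv ℤ φ hφ y) := by
    rw [← cv_prjv, ← prjv_vecMul_inc, h3]
  rw [SetLike.mem_coe, mem_fixedW]
  apply cv_injective
  rw [cv_vecMul, cv_incv]
  conv_lhs => rw [← h5]
  rw [incv_vecMul, Matrix.vecMul_vecMul, h2, ← incv_vecMul, h5]

theorem fixed_add_smul_span {R : Type u} [Ring R] (S : Set (Fin n → R)) (w : Fin n → R)
    (z : Fin n → R) (hz : z ∈ Submodule.span R (S ∪ {w})) :
    ∃ r : R, z - r • w ∈ Submodule.span R S := by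
  rw [Submodule.span_union, Submodule.mem_sup] at hz
  obtain ⟨y, hy, t, ht, rfl⟩ := hz
  obtain ⟨r, rfl⟩ := Submodule.mem_span_singleton.1 ht
  exact ⟨r, by rw [add_sub_cancel_right]; exact hy⟩

/-- Idempotents of `ℚ[G]` with integral trace are trivial. -/
theorem idem_trivial (f : MonoidAlgebra ℚ G) (hf : f * f = f) (z : ℤ)
    (hz : f.coeff 1 = (z : ℚ)) : f = 0 ∨ f = 1 := by
  have key : ∀ f : MonoidAlgebra ℚ G, f * f = f → 0 ≤ f.coeff 1 ∧ (f.coeff 1 = 0 → f = 0) := by
    intro f hf
    let F : Matrix (Fin 1) (Fin 1) (MonoidAlgebra ℚ G) := fun _ _ => f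
    have hF : F * F = F := by
      ext1 i j
      rw [Matrix.mul_apply]
      simp [F, hf]
    obtain ⟨h1, h2⟩ := kaplansky_rat F hF
    have h3 : tau F = f.coeff 1 := by
      unfold tau
      simp [F]
    rw [h3] at h1 h2
    refine ⟨h1, fun h => ?_⟩
    exact congrFun (congrFun (h2 h) 0) 0
  obtain ⟨h1, h2⟩ := key f hf
  obtain ⟨h3, h4⟩ := key (1 - f) (by
    rw [mul_sub, mul_one, sub_mul, one_mul, hf, sub_self, sub_zero])
  have h5 : (1 - f).coeff 1 = 1 - f.coeff 1 := by
    rw [MonoidAlgebra.coeff_sub, Finsupp.sub_apply]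
    congr 1
    simp
  rw [h5] at h3 h4
  rw [hz] at h1 h2 h3 h4
  have h6 : z = 0 ∨ z = 1 := by
    have h7 : (0 : ℤ) ≤ z := by exact_mod_cast h1
    have h8 : z ≤ 1 := by
      have : (z : ℚ) ≤ 1 := by linarith
      exact_mod_cast this
    omega
  rcases h6 with h | h
  · left; exact h2 (by rw [h]; simp)
  · right
    have h9 := h4 (by rw [h]; simp)
    exact (sub_eq_zero.1 h9).symm

theorem tau_map_inc (φ : FreeGroup X →* G) (hφ : Function.Injective φ)
    (ε : Matrix (Fin n) (Fin n) (MonoidAlgebra ℚ (FreeGroup X))) :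
    tau (ε.map (inc ℚ φ)) = tau ε := by
  unfold tau
  refine Finset.sum_congr rfl (fun i _ => ?_)
  have h := inc_coeff_apply φ hφ (ε i i) 1
  rw [map_one] at h
  exact h

/-- The main theorem for idempotent matrices. -/
theorem stFree_complement (φ : FreeGroup X →* G) (hφ : Function.Injective φ)
    (e : Matrix (Fin n) (Fin n) (MonoidAlgebra ℤ G)) (he : e * e = e)
    (T : Set (Fin n → MonoidAlgebra ℤ (FreeGroup X))) (w : Fin n → MonoidAlgebra ℤ G)
    (hK : ∀ v, Matrix.vecMul v e = v ↔
      v ∈ Submodule.span (MonoidAlgebra ℤ G) (incv ℤ φ '' T ∪ {w})) :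
    StFree (MonoidAlgebra ℤ G) (LinearMap.range (Matrix.toLinearMapRight' (1 - e))) := by
  classical
  obtain ⟨ε, hε1, hε2, hε3, zε, hzε⟩ := exists_eps φ hφ (e.map (cQ G))
  set E := e.map (cQ G) with hE
  set ε' := ε.map (inc ℚ φ) with hε'
  have hEE : E * E = E := by rw [hE, ← Matrix.map_mul, he]
  have hε'' : ε' * ε' = ε' := by rw [hε', ← Matrix.map_mul, hε1]
  set K₀ := Submodule.span (MonoidAlgebra ℤ G) (incv ℤ φ '' (fixedW φ e :
    Set (Fin n → MonoidAlgebra ℤ (FreeGroup X)))) with hK₀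
  have hTW : ∀ v ∈ T, v ∈ fixedW φ e := fun v hv => by
    rw [mem_fixedW, hK]
    exact Submodule.subset_span (Or.inl ⟨v, hv, rfl⟩)
  have hTK : Submodule.span (MonoidAlgebra ℤ G) (incv ℤ φ '' T) ≤ K₀ :=
    Submodule.span_mono (Set.image_mono hTW)
  have hwe : Matrix.vecMul w e = w := by
    rw [hK]
    exact Submodule.subset_span (Or.inr rfl)
  have hei : ∀ i, Matrix.vecMul (e i) e = e i := fun i => by
    rw [← Matrix.mul_apply_eq_vecMul, he]
  have hdec : ∀ i, ∃ r : MonoidAlgebra ℤ G, e i - r • w ∈ K₀ := by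
    intro i
    obtain ⟨r, hr⟩ := fixed_add_smul_span (incv ℤ φ '' T) w (e i) ((hK _).1 (hei i))
    exact ⟨r, hTK hr⟩
  choose r₀ hr₀ using hdec
  set r : Fin n → MonoidAlgebra ℤ G := Matrix.mulVec e r₀ with hr
  have her : Matrix.mulVec e r = r := by rw [hr, Matrix.mulVec_mulVec, he]
  have hrK : ∀ i, e i - r i • w ∈ K₀ := by
    intro i
    have h1 : e i - r i • w = ∑ j, e i j • (e j - r₀ j • w) := by
      simp only [smul_sub, smul_smul]
      rw [Finset.sum_sub_distrib, ← Finset.sum_smul]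
      congr 1
      conv_lhs => rw [← hei i]
      funext l
      rw [Finset.sum_apply]
      rfl
    rw [h1]
    exact Submodule.sum_mem _ (fun j _ => Submodule.smul_mem _ _ (hr₀ j))
  set k : Matrix (Fin n) (Fin n) (MonoidAlgebra ℤ G) := fun i => e i - r i • w with hk
  set u : Fin n → MonoidAlgebra ℚ G := cv r with hu
  set wt : Fin n → MonoidAlgebra ℚ G := cv w - Matrix.vecMul (cv w) ε' with hwt
  have hcwE : Matrix.vecMul (cv w) E = cv w := by rw [hE, ← cv_vecMul, hwe]
  -- the matrix `g`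
  have hEi : ∀ i, E i = cv (k i) + u i • cv w := by
    intro i
    have h1 : e i = k i + r i • w := by rw [hk]; simp
    have h2 : E i = cv (e i) := rfl
    rw [h2, h1, cv_add, cv_smul]
    rfl
  have hg : ∀ i, (E - E * ε') i = u i • wt := by
    intro i
    have h1 : (E - E * ε') i = E i - Matrix.vecMul (E i) ε' := by
      rw [← Matrix.mul_apply_eq_vecMul]; rfl
    rw [h1, hEi, Matrix.add_vecMul, vecMul_smul', eps_of_mem_span φ e ε hε3 (k i) (hrK i), hwt,
      smul_sub]
    abel
  have hwtE : Matrix.vecMul wt E = wt := by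
    rw [hwt, Matrix.sub_vecMul, hcwE, Matrix.vecMul_vecMul, hε2]
  have hwtε : Matrix.vecMul wt ε' = 0 := by
    rw [hwt, Matrix.sub_vecMul, Matrix.vecMul_vecMul, hε'', sub_self]
  have hwtg : Matrix.vecMul wt (E - E * ε') = wt := by
    rw [Matrix.vecMul_sub, hwtE, ← Matrix.vecMul_vecMul, hwtE, hwtε, sub_zero]
  set f : MonoidAlgebra ℚ G := ∑ j, wt j * u j with hf
  have hfw : f • wt = wt := by
    conv_rhs => rw [← hwtg]
    funext j
    change f * wt j = ∑ i, wt i * (E - E * ε') i j
    rw [hf, Finset.sum_mul]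
    refine Finset.sum_congr rfl (fun i _ => ?_)
    rw [hg i]
    exact mul_assoc _ _ _
  have hff : f * f = f := by
    conv_lhs => rw [hf, ← hf]
    conv_lhs => rhs; rw [hf]
    rw [Finset.mul_sum]
    conv_rhs => rw [hf]
    refine Finset.sum_congr rfl (fun i _ => ?_)
    rw [← mul_assoc]
    congr 1
    exact congrFun hfw i
  have htau : f.coeff 1 = ((tau e - zε : ℤ) : ℚ) := by
    have h1 : tau (E - E * ε') = f.coeff 1 := by
      unfold tau
      rw [hf, MonoidAlgebra.coeff_sum, Finsupp.finsetSum_apply]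
      refine Finset.sum_congr rfl (fun i _ => ?_)
      rw [hg i]
      exact coeff_one_mul_comm _ _
    rw [← h1, tau_sub, tau_mul_comm, hε2, hε', tau_map_inc φ hφ, hzε, hE, tau_map_cQ]
    push_cast
    ring
  rcases idem_trivial f hff _ htau with hf0 | hf1
  · -- all relations are defined over the subgroup
    have hwt0 : wt = 0 := by rw [← hfw, hf0, zero_smul]
    have hE0 : E * ε' = E := by
      have : E - E * ε' = 0 := by
        funext i
        rw [hg i, hwt0, smul_zero]
        rfl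
      exact (sub_eq_zero.1 this).symm
    exact stFree_of_descent φ hφ e (fixedW φ e)
      (fun i => mem_span_of_eps φ hφ e ε hε2 hE0 (e i) (hei i)) (fun v hv => hv)
  · -- the exceptional relation splits off
    have hgu : Matrix.mulVec (E - E * ε') u = u := by
      funext i
      change ∑ j, (E - E * ε') i j * u j = u i
      have h1 : ∀ j, (E - E * ε') i j * u j = u i * (wt j * u j) := by
        intro j
        rw [hg i]
        exact mul_assoc _ _ _
      rw [Finset.sum_congr rfl (fun j _ => h1 j), ← Finset.mul_sum, ← hf, hf1, mul_one]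
    have hεu : Matrix.mulVec ε' u = 0 := by
      rw [← hgu, Matrix.mulVec_mulVec, Matrix.mul_sub, ← Matrix.mul_assoc, hε2, hε'', sub_self,
        Matrix.zero_mulVec]
    have hzr : ∀ z ∈ K₀, ∑ j, z j * r j = 0 := by
      intro z hz
      apply cQ_injective
      rw [map_sum, map_zero]
      have h1 : ∑ j, cQ G (z j * r j) = Matrix.vecMul (cv z) ε' ⬝ᵥ u := by
        rw [eps_of_mem_span φ e ε hε3 z hz]
        exact Finset.sum_congr rfl (fun j _ => map_mul _ _ _)
      rw [h1, ← Matrix.dotProduct_mulVec, hεu, dotProduct_zero]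
    have hwr : ∑ j, w j * r j = 1 := by
      apply cQ_injective
      rw [map_sum, map_one]
      have h1 : ∑ j, cQ G (w j * r j) = f + Matrix.vecMul (cv w) ε' ⬝ᵥ u := by
        rw [hf, dotProduct, ← Finset.sum_add_distrib]
        refine Finset.sum_congr rfl (fun j _ => ?_)
        rw [map_mul, hwt, Pi.sub_apply, ← add_mul, sub_add_cancel]
        rfl
      rw [h1, ← Matrix.dotProduct_mulVec, hεu, dotProduct_zero, hf1, add_zero]
    have hvk : ∀ v, Matrix.vecMul v k = Matrix.vecMul v e - (∑ j, v j * r j) • w := by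
      intro v
      funext l
      change ∑ i, v i * (e i l - r i * w l) = ∑ i, v i * e i l - (∑ j, v j * r j) * w l
      rw [Finset.sum_mul, ← Finset.sum_sub_distrib]
      refine Finset.sum_congr rfl (fun i _ => ?_)
      rw [mul_sub, mul_assoc]
    have hst := stFree_of_descent φ hφ k (fixedW φ e) hrK (fun v hv => by
      rw [hvk, hzr _ (Submodule.subset_span ⟨v, hv, rfl⟩), zero_smul, sub_zero]
      exact hv)
    have hkk : ∀ v, Matrix.vecMul (Matrix.vecMul v k) k = Matrix.vecMul v k := by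
      intro v
      have h1 : Matrix.vecMul v k ∈ K₀ := vecMul_mem_of_rows k K₀ hrK v
      rw [hvk (Matrix.vecMul v k), hzr _ h1, zero_smul, sub_zero]
      exact fixed_of_mem_span φ e _ h1
    -- the equivalence
    apply StFree.of_prod_free (a := 1)
    refine hst.congr ?_
    have hre : Matrix.mulVec (1 - e) r = 0 := by
      rw [Matrix.sub_mulVec, Matrix.one_mulVec, her, sub_self]
    have hrange : ∀ p ∈ LinearMap.range (Matrix.toLinearMapRight' (1 - e)),
        Matrix.vecMul p e = 0 ∧ ∑ j, p j * r j = 0 := by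
      rintro _ ⟨v, rfl⟩
      constructor
      · change Matrix.vecMul (Matrix.vecMul v (1 - e)) e = 0
        rw [Matrix.vecMul_vecMul, Matrix.sub_mul, Matrix.one_mul, he, sub_self,
          Matrix.vecMul_zero]
      · change Matrix.vecMul v (1 - e) ⬝ᵥ r = 0
        rw [← Matrix.dotProduct_mulVec, hre, dotProduct_zero]
    let fw : (Fin n → MonoidAlgebra ℤ G) →ₗ[MonoidAlgebra ℤ G]
        (LinearMap.range (Matrix.toLinearMapRight' (1 - e)) × (Fin 1 → MonoidAlgebra ℤ G)) :=
      LinearMap.prod (Matrix.toLinearMapRight' (1 - e)).rangeRestrict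
        { toFun := fun v _ => ∑ j, v j * r j
          map_add' := fun v v' => by
            funext _
            simp only [Pi.add_apply, add_mul, Finset.sum_add_distrib]
          map_smul' := fun a v => by
            funext _
            simp only [Pi.smul_apply, smul_eq_mul, mul_assoc, Finset.mul_sum, RingHom.id_apply] }
    let F : LinearMap.range (Matrix.toLinearMapRight' (1 - k)) →ₗ[MonoidAlgebra ℤ G]
        (LinearMap.range (Matrix.toLinearMapRight' (1 - e)) × (Fin 1 → MonoidAlgebra ℤ G)) :=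
      fw.comp (LinearMap.range (Matrix.toLinearMapRight' (1 - k))).subtype
    refine LinearEquiv.ofBijective F ⟨?_, ?_⟩
    · rw [← LinearMap.ker_eq_bot, eq_bot_iff]
      rintro ⟨v, hv⟩ h0
      have h0' : fw v = 0 := h0
      have h1 : Matrix.vecMul v (1 - e) = 0 := congrArg Subtype.val (congrArg Prod.fst h0')
      have h2 : ∑ j, v j * r j = 0 := congrFun (congrArg Prod.snd h0') 0
      have h3 : Matrix.vecMul v k = 0 := by
        obtain ⟨y, rfl⟩ := hv
        change Matrix.vecMul (Matrix.vecMul y (1 - k)) k = 0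
        rw [Matrix.vecMul_sub, Matrix.vecMul_one, Matrix.sub_vecMul, hkk, sub_self]
      rw [Matrix.vecMul_sub, Matrix.vecMul_one, sub_eq_zero] at h1
      rw [hvk, h2, zero_smul, sub_zero, ← h1] at h3
      rw [Submodule.mem_bot]
      exact Subtype.ext h3
    · rintro ⟨⟨p, hp⟩, a⟩
      obtain ⟨hp1, hp2⟩ := hrange p hp
      have h4 : Matrix.vecMul (p + a 0 • w) (1 - k) = p + a 0 • w := by
        rw [Matrix.vecMul_sub, Matrix.vecMul_one, hvk, Matrix.add_vecMul, vecMul_smul', hwe, hp1]
        have h5 : ∑ j, (p + a 0 • w) j * r j = a 0 := by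
          have h6 : ∀ j, (p + a 0 • w) j * r j = p j * r j + a 0 * (w j * r j) := by
            intro j
            rw [Pi.add_apply, Pi.smul_apply, smul_eq_mul, add_mul, mul_assoc]
          rw [Finset.sum_congr rfl (fun j _ => h6 j), Finset.sum_add_distrib, hp2,
            ← Finset.mul_sum, hwr, mul_one, zero_add]
        rw [h5]
        abel
      refine ⟨⟨p + a 0 • w, ⟨_, h4⟩⟩, ?_⟩
      refine Prod.ext (Subtype.ext ?_) ?_
      · change Matrix.vecMul (p + a 0 • w) (1 - e) = p
        rw [Matrix.vecMul_sub, Matrix.vecMul_one, Matrix.add_vecMul, vecMul_smul', hwe, hp1]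
        abel
      · funext i
        have hi : i = 0 := Subsingleton.elim _ _
        subst hi
        change ∑ j, (p + a 0 • w) j * r j = a 0
        have h6 : ∀ j, (p + a 0 • w) j * r j = p j * r j + a 0 * (w j * r j) := by
          intro j
          rw [Pi.add_apply, Pi.smul_apply, smul_eq_mul, add_mul, mul_assoc]
        rw [Finset.sum_congr rfl (fun j _ => h6 j), Finset.sum_add_distrib, hp2,
          ← Finset.mul_sum, hwr, mul_one, zero_add]

end Pool.Agent.Lib.MP_551055_al
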