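import Mathlib

/-!
Projective modules over `ℤ[G]`, `G` torsion-free, presented by a matrix all of whose rows (or all
of whose columns), with one exception, have at most two terms.
-/

set_option autoImplicit false

namespace Pool.Agent.Lib.MP_551055_al

universe u v w

open MonoidAlgebra

variable {G : Type u} [Group G]

/-- The standard involution of `ℤ[G]`, as a ring homomorphism to the opposite ring. -/
noncomputable def invHom (G : Type u) [Group G] :
    MonoidAlgebra ℤ G →ₐ[ℤ] (MonoidAlgebra ℤ G)ᵐᵒᵖ :=
  MonoidAlgebra.lift ℤ (MonoidAlgebra ℤ G)ᵐᵒᵖ G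
    { toFun := fun g => MulOpposite.op (single g⁻¹ 1)
      map_one' := by rw [inv_one]; rfl
      map_mul' := fun g h => by
        rw [← MulOpposite.op_mul, MonoidAlgebra.single_mul_single, mul_inv_rev, mul_one] }

theorem invHom_single (g : G) (a : ℤ) : invHom G (single g a) = MulOpposite.op (single g⁻¹ a) := by
  rw [invHom, MonoidAlgebra.lift_single]
  change a • MulOpposite.op (single g⁻¹ (1 : ℤ)) = _
  rw [← MulOpposite.op_smul, MonoidAlgebra.smul_single, smul_eq_mul, mul_one]

theorem invHom_invol (x : MonoidAlgebra ℤ G) : (invHom G (invHom G x).unop).unop = x := by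
  induction x using MonoidAlgebra.induction_linear with
  | zero => simp
  | add x y hx hy => rw [map_add, MulOpposite.unop_add, map_add, MulOpposite.unop_add, hx, hy]
  | single g a => rw [invHom_single, MulOpposite.unop_op, invHom_single, MulOpposite.unop_op,
      inv_inv]

/-- The standard involution. -/
noncomputable abbrev starInst (G : Type u) [Group G] : StarRing (MonoidAlgebra ℤ G) where
  star x := (invHom G x).unop
  star_involutive := invHom_invol
  star_mul x y := by rw [map_mul, MulOpposite.unop_mul]
  star_add x y := by rw [map_add, MulOpposite.unop_add]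

theorem invHom_coeff (x : MonoidAlgebra ℤ G) (g : G) :
    (invHom G x).unop.coeff g = x.coeff g⁻¹ := by
  classical
  induction x using MonoidAlgebra.induction_linear with
  | zero => simp
  | add x y hx hy =>
    rw [map_add, MulOpposite.unop_add, MonoidAlgebra.coeff_add, MonoidAlgebra.coeff_add,
      Finsupp.add_apply, Finsupp.add_apply, hx, hy]
  | single h a =>
    rw [invHom_single, MulOpposite.unop_op, MonoidAlgebra.coeff_single, MonoidAlgebra.coeff_single,
      Finsupp.single_apply, Finsupp.single_apply]
    simp only [inv_eq_iff_eq_inv]

end Pool.Agent.Lib.MP_551055_al
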