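import Mathlib
import Pool.Agent.Lib.MP_551055_al.Trim.FreeSubgroupPresentation
import Pool.Agent.Lib.MP_551055_al.Trim.OneRelation
import Pool.Agent.Lib.MP_551055_al.Trim.VNDefs

/-!
Free groups have integral von Neumann dimensions of kernels and stably free projectives.
-/

set_option autoImplicit false

set_option linter.unusedSectionVars false

namespace Pool.Agent.Lib.MP_551055_al
end Pool.Agent.Lib.MP_551055_al

namespace Pool.Agent.Lib.MP_551055_al.VN

open scoped InnerProductSpace

open Pool.Agent.Lib.MP_551055_al

open MonoidAlgebra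

universe u v w

section Kernel

end Kernel

section Rat

end Rat

section Free

variable {H : Type u} [Group H] {n m : ℕ}

theorem projStFree_of_free (H : Type u) [Group H] [IsFreeGroup H] : ProjStFree H := by
  classical
  intro Q _ _ hfin hproj
  obtain ⟨n, x, hx⟩ := Module.Finite.exists_fin (R := MonoidAlgebra ℤ H) (M := Q)
  let R := MonoidAlgebra ℤ H
  let π : (Fin n → R) →ₗ[R] Q := Fintype.linearCombination R x
  have hπ : Function.Surjective π := by
    rw [← LinearMap.range_eq_top, Fintype.range_linearCombination, hx]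
  obtain ⟨σ, hσ⟩ := Module.projective_lifting_property π LinearMap.id hπ
  have hσ' : ∀ p, π (σ p) = p := fun p => DFunLike.congr_fun hσ p
  let q : (Fin n → R) →ₗ[R] (Fin n → R) := LinearMap.id - σ ∘ₗ π
  have hq : ∀ v, q v = v - σ (π v) := fun v => rfl
  have hπq : ∀ v, π (q v) = 0 := fun v => by rw [hq, map_sub, hσ', sub_self]
  obtain ⟨e, he⟩ := (Matrix.toLinearMapRight' (m := Fin n) (n := Fin n) (R := R)).surjective q
  have he' : ∀ v, Matrix.vecMul v e = q v := fun v => DFunLike.congr_fun he v
  have : IsFreeGroup (⊤ : Subgroup H) := IsFreeGroup.ofMulEquiv Subgroup.topEquiv.symm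
  refine stFree_of_presentation_free (⊤ : Subgroup H) hproj e x hx ?_ (fun _ => 1) (fun _ => 1)
    (Or.inl ?_)
  · intro r
    have h1 : ∑ j, r j • x j = π r := (Fintype.linearCombination_apply _ _ _).symm
    rw [h1]
    constructor
    · intro h
      exact ⟨r, by rw [he', hq, h, map_zero, sub_zero]⟩
    · rintro ⟨v, rfl⟩
      rw [he', hπq]
  · rintro i ⟨j, hj⟩
    exact absurd (fun g _ => trivial) hj

end Free

end Pool.Agent.Lib.MP_551055_al.VN
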